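import Mathlib

/-!
# Irreducibility under the geometric part of the group
-/

namespace Pool.Agent.K1H13.GO

open Module

variable {E : Type*} [Field E] {V : Type*} [AddCommGroup V] [Module E V]
  {Q : Type*} [Group Q] {r : Representation E Q V}

/-- stable subspaces -/
def St (r : Representation E Q V) (S : Set Q) (U : Submodule E V) : Prop :=
  ∀ g ∈ S, ∀ u ∈ U, r g u ∈ U

/-- irreducible subspaces -/
def Ir (r : Representation E Q V) (S : Set Q) (U : Submodule E V) : Prop :=
  U ≠ ⊥ ∧ St r S U ∧ ∀ W ≤ U, St r S W → W = ⊥ ∨ W = U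

theorem r_inv (g : Q) (v : V) : r g⁻¹ (r g v) = v := by
  rw [← Module.End.mul_apply, ← map_mul, inv_mul_cancel, map_one]
  rfl

theorem r_inv' (g : Q) (v : V) : r g (r g⁻¹ v) = v := by
  rw [← Module.End.mul_apply, ← map_mul, mul_inv_cancel, map_one]
  rfl

theorem r_mul (g h : Q) (v : V) : r (g * h) v = r g (r h v) := by
  rw [map_mul, Module.End.mul_apply]

theorem r_inj (g : Q) : Function.Injective (r g) := fun u v h => by
  rw [← r_inv (r := r) g u, h, r_inv]

theorem exists_ir [FiniteDimensional E V] {S : Set Q} : ∀ (n : ℕ) (U : Submodule E V),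
    finrank E U = n → U ≠ ⊥ → St r S U → ∃ W ≤ U, Ir r S W := by
  intro n
  induction n using Nat.strong_induction_on with
  | _ n ih =>
    intro U hn hU hS
    by_cases h : ∀ W ≤ U, St r S W → W = ⊥ ∨ W = U
    · exact ⟨U, le_rfl, hU, hS, h⟩
    · push Not at h
      obtain ⟨W, hWU, hW, hW0, hW1⟩ := h
      obtain ⟨W', hW', h1⟩ := ih (finrank E W) (by
        rw [← hn]
        exact Submodule.finrank_lt_finrank_of_lt (lt_of_le_of_ne hWU hW1)) W rfl hW0 hW
      exact ⟨W', hW'.trans hWU, h1⟩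

/-- the equivariant maps from `A` to `Y` -/
def HomG (r : Representation E Q V) (S : Set Q) (A Y : Submodule E V) :
    Submodule E (A →ₗ[E] V) where
  carrier := {f | (∀ g ∈ S, ∀ a a' : A, (a' : V) = r g a → f a' = r g (f a)) ∧ ∀ a, f a ∈ Y}
  zero_mem' := ⟨fun g _ a a' _ => by simp, fun a => by simp⟩
  add_mem' := fun {f f'} hf hf' => ⟨fun g hg a a' h => by
    rw [LinearMap.add_apply, LinearMap.add_apply, hf.1 g hg a a' h, hf'.1 g hg a a' h, map_add],
    fun a => Y.add_mem (hf.2 a) (hf'.2 a)⟩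
  smul_mem' := fun c f hf => ⟨fun g hg a a' h => by
    rw [LinearMap.smul_apply, LinearMap.smul_apply, hf.1 g hg a a' h, map_smul],
    fun a => Y.smul_mem c (hf.2 a)⟩

theorem mem_HomG {S : Set Q} {A Y : Submodule E V} {f : A →ₗ[E] V} : f ∈ HomG r S A Y ↔
    (∀ g ∈ S, ∀ a a' : A, (a' : V) = r g a → f a' = r g (f a)) ∧ ∀ a, f a ∈ Y := Iff.rfl

/-- the range of an equivariant map is stable -/
theorem st_range {S : Set Q} {A Y : Submodule E V} (hA : St r S A) {f : A →ₗ[E] V}
    (hf : f ∈ HomG r S A Y) : St r S (LinearMap.range f) := by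
  rintro g hg _ ⟨a, rfl⟩
  exact ⟨⟨r g a, hA g hg a a.2⟩, hf.1 g hg a _ rfl⟩

/-- an equivariant map on an irreducible subspace is injective -/
theorem inj_of_ne {S : Set Q} {A Y : Submodule E V} (hA : Ir r S A) {f : A →ₗ[E] V}
    (hf : f ∈ HomG r S A Y) (h0 : f ≠ 0) : Function.Injective f := by
  rw [injective_iff_map_eq_zero]
  have h1 : St r S ((LinearMap.ker f).map A.subtype) := by
    rintro g hg _ ⟨a, ha, rfl⟩
    refine ⟨⟨r g a, hA.2.1 g hg a a.2⟩, ?_, rfl⟩
    change f _ = 0
    rw [hf.1 g hg a _ rfl, LinearMap.mem_ker.1 ha, map_zero]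
  rcases hA.2.2 _ (Submodule.map_subtype_le _ _) h1 with h2 | h2
  · intro a ha
    have h3 : (a : V) ∈ (LinearMap.ker f).map A.subtype := ⟨a, ha, rfl⟩
    rw [h2, Submodule.mem_bot] at h3
    exact Subtype.ext h3
  · exfalso
    apply h0
    ext a
    have h3 : (a : V) ∈ (LinearMap.ker f).map A.subtype := by
      rw [h2]; exact a.2
    obtain ⟨a', ha', h4⟩ := h3
    have h5 : a' = a := Subtype.ext h4
    rw [h5] at ha'
    exact ha'

/-- the image of an irreducible subspace is irreducible -/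
theorem ir_range {S : Set Q} {A Y : Submodule E V} (hA : Ir r S A) {f : A →ₗ[E] V}
    (hf : f ∈ HomG r S A Y) (h0 : f ≠ 0) : Ir r S (LinearMap.range f) := by
  refine ⟨fun h => h0 (LinearMap.range_eq_bot.1 h), st_range hA.2.1 hf, fun W hW hWS => ?_⟩
  have h1 : St r S ((W.comap f).map A.subtype) := by
    rintro g hg _ ⟨a, ha, rfl⟩
    refine ⟨⟨r g a, hA.2.1 g hg a a.2⟩, ?_, rfl⟩
    change f _ ∈ W
    rw [hf.1 g hg a _ rfl]
    exact hWS g hg _ ha
  rcases hA.2.2 _ (Submodule.map_subtype_le _ _) h1 with h2 | h2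
  · left
    rw [eq_bot_iff]
    intro w hw
    obtain ⟨a, rfl⟩ := hW hw
    have h3 : (a : V) ∈ (W.comap f).map A.subtype := ⟨a, hw, rfl⟩
    rw [h2, Submodule.mem_bot] at h3
    have h4 : a = 0 := Subtype.ext h3
    rw [h4, map_zero]
    exact Submodule.zero_mem _
  · right
    refine le_antisymm hW ?_
    rintro _ ⟨a, rfl⟩
    have h3 : (a : V) ∈ (W.comap f).map A.subtype := by
      rw [h2]; exact a.2
    obtain ⟨a', ha', h4⟩ := h3
    have h5 : a' = a := Subtype.ext h4
    rw [h5] at ha'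
    exact ha'

theorem St.sup {S : Set Q} {U W : Submodule E V} (hU : St r S U) (hW : St r S W) :
    St r S (U ⊔ W) := by
  intro g hg u hu
  obtain ⟨x, hx, y, hy, rfl⟩ := Submodule.mem_sup.1 hu
  rw [map_add]
  exact Submodule.add_mem_sup (hU g hg x hx) (hW g hg y hy)

theorem St.inf {S : Set Q} {U W : Submodule E V} (hU : St r S U) (hW : St r S W) :
    St r S (U ⊓ W) := fun g hg u hu => ⟨hU g hg u hu.1, hW g hg u hu.2⟩

theorem St.iSup {S : Set Q} {ι : Sort*} {U : ι → Submodule E V} (hU : ∀ i, St r S (U i)) :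
    St r S (⨆ i, U i) := by
  intro g hg
  have h1 : (⨆ i, U i) ≤ (⨆ i, U i).comap (r g) :=
    iSup_le fun i u hu => (le_iSup U i) (hU i g hg u hu)
  exact fun u hu => h1 hu

/-- a projection to a summand -/
theorem exists_proj {P S : Submodule E V} (h : Disjoint S P) :
    ∃ T : V →ₗ[E] V, (∀ p ∈ P, T p = p) ∧ (∀ s ∈ S, T s = 0) ∧ ∀ v, T v ∈ P := by
  obtain ⟨C, hC, hc⟩ := h.exists_isCompl
  refine ⟨P.subtype ∘ₗ Submodule.projectionOnto P C hc.symm, fun p hp => ?_, fun s hs => ?_,
    fun v => ?_⟩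
  · exact congrArg Subtype.val (Submodule.projectionOnto_apply_left hc.symm ⟨p, hp⟩)
  · change ((Submodule.projectionOnto P C hc.symm s : P) : V) = 0
    rw [Submodule.projectionOnto_apply_of_mem_right hc.symm (hC hs)]
    rfl
  · exact (Submodule.projectionOnto P C hc.symm v).2

/-- an irreducible subspace of an independent sum maps to one of the summands -/
theorem exists_map {S : Set Q} (A : ℕ → Submodule E V)
    (hA : ∀ j, St r S (A j)) : ∀ (k : ℕ),
    (∀ j < k, Disjoint ((Finset.range j).sup A) (A j)) →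
    ∀ (B : Submodule E V), B ≠ ⊥ → B ≤ (Finset.range k).sup A → St r S B →
      ∃ j < k, ∃ f ∈ HomG r S B (A j), f ≠ 0 := by
  intro k
  induction k with
  | zero =>
    intro _ B hB hB' _
    exfalso
    apply hB
    rw [eq_bot_iff]
    refine hB'.trans ?_
    simp
  | succ k ih =>
    intro hd B hB hB' hBS
    obtain ⟨T, hT1, hT2, hT3⟩ := exists_proj (hd k (Nat.lt_succ_self k))
    have hsup : (Finset.range (k + 1)).sup A = (Finset.range k).sup A ⊔ A k := by
      rw [Finset.range_add_one, Finset.sup_insert, sup_comm]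
    have hsS : St r S ((Finset.range k).sup A) := by
      rw [Finset.sup_eq_iSup]
      exact St.iSup fun i => St.iSup fun _ => hA i
    have heq : ∀ g ∈ S, ∀ x ∈ ((Finset.range k).sup A) ⊔ A k, T (r g x) = r g (T x) := by
      intro g hg x hx
      obtain ⟨s, hs, p, hp, rfl⟩ := Submodule.mem_sup.1 hx
      rw [map_add, map_add, map_add, hT2 s hs, hT1 p hp, hT2 _ (hsS g hg s hs),
        hT1 _ (hA k g hg p hp), zero_add, zero_add]
    by_cases h0 : ∀ b ∈ B, T b = 0
    · -- `B` is in the kernel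
      have h1 : B ≤ ((Finset.range k).sup A) := by
        intro b hb
        have h2 := hB' hb
        rw [hsup] at h2
        obtain ⟨s, hs, p, hp, h3⟩ := Submodule.mem_sup.1 h2
        have h4 := h0 b hb
        rw [← h3, map_add, hT2 s hs, hT1 p hp, zero_add] at h4
        rw [← h3, h4, add_zero]
        exact hs
      obtain ⟨j, hj, f, hf, hf0⟩ := ih (fun j hj => hd j (by omega)) B hB h1 hBS
      exact ⟨j, by omega, f, hf, hf0⟩
    · push Not at h0
      obtain ⟨b, hb, hb0⟩ := h0
      refine ⟨k, Nat.lt_succ_self k, T.comp B.subtype, ⟨fun g hg a a' h => ?_, fun a => hT3 _⟩, ?_⟩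
      · change T a' = r g (T a)
        rw [h]
        refine heq g hg a ?_
        rw [← hsup]
        exact hB' a.2
      · intro h
        apply hb0
        exact congrArg (fun f : B →ₗ[E] V => f ⟨b, hb⟩) h

end Pool.Agent.K1H13.GO
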