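import Mathlib
import Pool.Agent.K1H13.GO.Irr

/-!
# Minimal potentially stable subspaces are irreducible for the geometric part
-/

namespace Pool.Agent.K1H13.GO

open Module

variable {E : Type*} [Field E] {V : Type*} [AddCommGroup V] [Module E V]
  {Q : Type*} [Group Q] {r : Representation E Q V}

/-- the elements whose degree is divisible by `m` -/
def layer (d : Q →* Multiplicative ℤ) (m : ℕ) : Set Q := {g | (m : ℤ) ∣ Multiplicative.toAdd (d g)}

theorem mem_layer {d : Q →* Multiplicative ℤ} {m : ℕ} {g : Q} :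
    g ∈ layer d m ↔ (m : ℤ) ∣ Multiplicative.toAdd (d g) := Iff.rfl

theorem mem_layer_zero {d : Q →* Multiplicative ℤ} {g : Q} : g ∈ layer d 0 ↔ d g = 1 := by
  rw [mem_layer, Nat.cast_zero, zero_dvd_iff]
  exact ⟨fun h => Multiplicative.toAdd.injective h, fun h => by rw [h]; rfl⟩

theorem layer_mono {d : Q →* Multiplicative ℤ} {m n : ℕ} (h : m ∣ n) : layer d n ⊆ layer d m :=
  fun _ hg => (Int.natCast_dvd_natCast.2 h).trans hg

theorem layer_zero {d : Q →* Multiplicative ℤ} {m : ℕ} : layer d 0 ⊆ layer d m :=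
  layer_mono (dvd_zero m)

theorem layer_mul {d : Q →* Multiplicative ℤ} {m : ℕ} {g h : Q} (hg : g ∈ layer d m)
    (hh : h ∈ layer d m) : g * h ∈ layer d m := by
  rw [mem_layer, map_mul, toAdd_mul]
  exact dvd_add hg hh

theorem layer_inv {d : Q →* Multiplicative ℤ} {m : ℕ} {g : Q} (hg : g ∈ layer d m) :
    g⁻¹ ∈ layer d m := by
  rw [mem_layer, map_inv, toAdd_inv]
  exact (dvd_neg).2 hg

theorem layer_conj {d : Q →* Multiplicative ℤ} {m : ℕ} {g : Q} (x : Q) (hg : g ∈ layer d m) :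
    x * g * x⁻¹ ∈ layer d m := by
  rw [mem_layer, map_mul d, map_mul d, map_inv d, mul_right_comm, mul_inv_cancel, one_mul]
  exact hg

/-- minimal potentially stable subspaces -/
def MinPS (r : Representation E Q V) (d : Q →* Multiplicative ℤ) (Y : Submodule E V) : Prop :=
  Y ≠ ⊥ ∧ (∃ m, 0 < m ∧ St r (layer d m) Y) ∧
    ∀ W ≤ Y, (∃ m, 0 < m ∧ St r (layer d m) W) → W = ⊥ ∨ W = Y

theorem exists_minPS [FiniteDimensional E V] {d : Q →* Multiplicative ℤ} : ∀ (n : ℕ)
    (U : Submodule E V), finrank E U = n → U ≠ ⊥ → (∃ m, 0 < m ∧ St r (layer d m) U) →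
    ∃ W ≤ U, MinPS r d W := by
  intro n
  induction n using Nat.strong_induction_on with
  | _ n ih =>
    intro U hn hU hS
    by_cases h : ∀ W ≤ U, (∃ m, 0 < m ∧ St r (layer d m) W) → W = ⊥ ∨ W = U
    · exact ⟨U, le_rfl, hU, hS, h⟩
    · push Not at h
      obtain ⟨W, hWU, hW, hW0, hW1⟩ := h
      obtain ⟨W', hW', h1⟩ := ih (finrank E W) (by
        rw [← hn]
        exact Submodule.finrank_lt_finrank_of_lt (lt_of_le_of_ne hWU hW1)) W rfl hW0 hW
      exact ⟨W', hW'.trans hWU, h1⟩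

/-- stability under one element -/
theorem stable_zpow [FiniteDimensional E V] {W : Submodule E V} {x : Q}
    (h : ∀ w ∈ W, r x w ∈ W) (t : ℤ) : ∀ w ∈ W, r (x ^ t) w ∈ W := by
  have h1 : W.map (r x) = W := by
    refine Submodule.eq_of_le_of_finrank_eq ?_ ?_
    · rintro _ ⟨w, hw, rfl⟩
      exact h w hw
    · exact (LinearEquiv.finrank_eq (Submodule.equivMapOfInjective (r x) (r_inj x) W)).symm
  have h2 : ∀ w ∈ W, r x⁻¹ w ∈ W := by
    intro w hw
    rw [← h1] at hw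
    obtain ⟨w', hw', rfl⟩ := hw
    rw [r_inv]
    exact hw'
  have h3 : ∀ (n : ℕ), ∀ w ∈ W, r (x ^ n) w ∈ W := by
    intro n
    induction n with
    | zero => intro w hw; rw [pow_zero, map_one]; exact hw
    | succ n ih => intro w hw; rw [pow_succ, r_mul]; exact ih _ (h w hw)
  have h4 : ∀ (n : ℕ), ∀ w ∈ W, r (x⁻¹ ^ n) w ∈ W := by
    intro n
    induction n with
    | zero => intro w hw; rw [pow_zero, map_one]; exact hw
    | succ n ih => intro w hw; rw [pow_succ, r_mul]; exact ih _ (h2 w hw)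
  rcases t with n | n
  · intro w hw
    rw [Int.ofNat_eq_natCast, zpow_natCast]
    exact h3 n w hw
  · intro w hw
    rw [zpow_negSucc, ← inv_pow]
    exact h4 _ w hw

theorem layer_split {d : Q →* Multiplicative ℤ} {F : Q} (hF : d F = Multiplicative.ofAdd 1)
    {m : ℕ} {g : Q} (hg : g ∈ layer d m) : ∃ (t : ℤ) (g0 : Q), g0 ∈ layer d 0 ∧
      g = g0 * (F ^ m) ^ t ∧ Multiplicative.toAdd (d g) = m * t := by
  obtain ⟨t, ht⟩ := hg
  refine ⟨t, g * ((F ^ m) ^ t)⁻¹, ?_, by group, ht⟩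
  rw [mem_layer_zero, map_mul, map_inv, map_zpow, map_pow, hF, mul_inv_eq_one]
  apply Multiplicative.toAdd.injective
  rw [ht, toAdd_zpow, toAdd_pow, toAdd_ofAdd]
  simp [mul_comm]

/-- **A minimal potentially stable subspace is irreducible for the geometric part.** -/
theorem MinPS.ir [IsAlgClosed E] [FiniteDimensional E V] {d : Q →* Multiplicative ℤ} {F : Q}
    (hF : d F = Multiplicative.ofAdd 1) {Y : Submodule E V} (hY : MinPS r d Y) :
    Ir r (layer d 0) Y := by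
  classical
  obtain ⟨hY0, ⟨m0, hm0, hYst⟩, hmin⟩ := hY
  obtain ⟨A, hAY, hA⟩ := exists_ir (r := r) (S := layer d 0) _ Y rfl hY0
    (fun g hg => hYst g (layer_zero hg))
  set Φ := F ^ m0 with hΦ
  have hYΦ : ∀ t : ℤ, ∀ y ∈ Y, r (Φ ^ t) y ∈ Y := by
    refine fun t => stable_zpow (fun y hy => hYst Φ ?_ y hy) t
    rw [mem_layer, hΦ, map_pow, hF, toAdd_pow, toAdd_ofAdd]
    simp
  -- the translates
  let A' : ℕ → Submodule E V := fun j => A.map (r (Φ ^ j))
  have hA'st : ∀ j, St r (layer d 0) (A' j) := by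
    rintro j g hg _ ⟨a, ha, rfl⟩
    refine ⟨r ((Φ ^ j)⁻¹ * g * (Φ ^ j)⁻¹⁻¹) a, hA.2.1 _ (layer_conj _ hg) a ha, ?_⟩
    rw [← r_mul, ← r_mul]
    congr 2
    group
  have hA'0 : ∀ j, A' j ≠ ⊥ := by
    intro j h
    apply hA.1
    rw [eq_bot_iff]
    intro a ha
    have h1 : r (Φ ^ j) a ∈ A' j := ⟨a, ha, rfl⟩
    rw [h, Submodule.mem_bot] at h1
    have h2 : a = 0 := r_inj (r := r) (Φ ^ j) (by rw [h1, map_zero])
    rw [h2]
    exact Submodule.zero_mem _
  have hA'ir : ∀ j, Ir r (layer d 0) (A' j) := by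
    intro j
    refine ⟨hA'0 j, hA'st j, fun W hW hWS => ?_⟩
    have h1 : W = (W.comap (r (Φ ^ j))).map (r (Φ ^ j)) := by
      rw [Submodule.map_comap_eq]
      refine (inf_eq_right.2 ?_).symm
      intro w _
      exact ⟨r (Φ ^ j)⁻¹ w, r_inv' _ _⟩
    have h2 : W.comap (r (Φ ^ j)) ≤ A := by
      intro x hx
      obtain ⟨a, ha, h3⟩ := hW hx
      rw [← r_inj (r := r) _ h3]
      exact ha
    have h3 : St r (layer d 0) (W.comap (r (Φ ^ j))) := by
      intro g hg x hx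
      change r (Φ ^ j) (r g x) ∈ W
      have h4 := hWS _ (layer_conj (Φ ^ j) hg) _ hx
      rw [← r_mul] at h4 ⊢
      convert h4 using 3
      group
    rcases hA.2.2 _ h2 h3 with h4 | h4
    · left
      rw [h1, h4, Submodule.map_bot]
    · right
      rw [h1, h4]
  -- dependence
  have hdep : ∃ k, ¬Disjoint ((Finset.range k).sup A') (A' k) := by
    by_contra hcon
    push Not at hcon
    have h1 : ∀ k, k ≤ finrank E ((Finset.range k).sup A' : Submodule E V) := by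
      intro k
      induction k with
      | zero => exact Nat.zero_le _
      | succ k ih =>
        have h2 : (Finset.range k).sup A' < (Finset.range (k + 1)).sup A' := by
          rw [Finset.range_add_one, Finset.sup_insert]
          refine lt_of_le_of_ne le_sup_right fun h => ?_
          have h3 : A' k ≤ (Finset.range k).sup A' := by
            rw [h]; exact le_sup_left
          exact hA'0 k (disjoint_self.1 ((hcon k).mono_left h3))
        have h3 := Submodule.finrank_lt_finrank_of_lt h2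
        omega
    have h2 := h1 (finrank E V + 1)
    have h3 := Submodule.finrank_le ((Finset.range (finrank E V + 1)).sup A')
    omega
  let k := Nat.find hdep
  have hk : ¬Disjoint ((Finset.range k).sup A') (A' k) := Nat.find_spec hdep
  have hk' : ∀ j < k, Disjoint ((Finset.range j).sup A') (A' j) := fun j hj =>
    not_not.1 (Nat.find_min hdep hj)
  have hle : A' k ≤ (Finset.range k).sup A' := by
    have h1 : St r (layer d 0) ((Finset.range k).sup A') := by
      rw [Finset.sup_eq_iSup]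
      exact St.iSup fun i => St.iSup fun _ => hA'st i
    rcases (hA'ir k).2.2 _ inf_le_right (h1.inf (hA'st k)) with h2 | h2
    · exact absurd (disjoint_iff.2 h2) hk
    · rw [← h2]; exact inf_le_left
  obtain ⟨j, hj, f, hf, hf0⟩ := exists_map A' hA'st k hk' (A' k) (hA'0 k) hle (hA'st k)
  have hfinj := inj_of_ne (hA'ir k) hf hf0
  obtain ⟨n, hn⟩ := Nat.exists_eq_add_of_lt hj
  -- the map `τ`
  let ik : A →ₗ[E] A' k := ((r (Φ ^ k)).restrict (fun a ha => ⟨a, ha, rfl⟩))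
  let τ0 : A →ₗ[E] V := (r (Φ ^ j)⁻¹) ∘ₗ f ∘ₗ ik
  have hτ0 : ∀ a, τ0 a ∈ A := by
    intro a
    obtain ⟨a', ha', h1⟩ := hf.2 (ik a)
    change r (Φ ^ j)⁻¹ (f (ik a)) ∈ A
    rw [← h1, r_inv]
    exact ha'
  let τ : A →ₗ[E] A := τ0.codRestrict A hτ0
  have hτinj : Function.Injective τ := by
    intro a b hab
    have h1 : τ0 a = τ0 b := congrArg Subtype.val hab
    have h2 : ik a = ik b := hfinj (r_inj _ h1)
    have h3 : r (Φ ^ k) (a : V) = r (Φ ^ k) (b : V) := congrArg Subtype.val h2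
    exact Subtype.ext (r_inj _ h3)
  have hτsurj : Function.Surjective τ := LinearMap.injective_iff_surjective.1 hτinj
  have hτeq : ∀ g ∈ layer d 0, ∀ a a' : A, (a' : V) = r g a →
      (τ a' : V) = r (Φ ^ (n + 1) * g * (Φ ^ (n + 1))⁻¹) (τ a : V) := by
    intro g hg a a' h
    change r (Φ ^ j)⁻¹ (f (ik a')) = r _ (r (Φ ^ j)⁻¹ (f (ik a)))
    have h1 : ((ik a' : A' k) : V) = r (Φ ^ k * g * (Φ ^ k)⁻¹) (ik a : V) := by
      change r (Φ ^ k) (a' : V) = r _ (r (Φ ^ k) (a : V))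
      rw [h, ← r_mul, ← r_mul]
      congr 2
      group
    rw [hf.1 _ (layer_conj _ hg) _ _ h1, ← r_mul, ← r_mul]
    congr 2
    rw [hn, show j + n + 1 = j + (n + 1) by ring, pow_add]
    group
  -- the operator
  let Θ0 : (A →ₗ[E] V) →ₗ[E] (A →ₗ[E] V) :=
    { toFun := fun f' => (r (Φ ^ (n + 1))⁻¹) ∘ₗ f' ∘ₗ τ
      map_add' := fun x y => by ext a; simp
      map_smul' := fun c x => by ext a; simp }
  have hΘ0 : ∀ f' a, Θ0 f' a = r (Φ ^ (n + 1))⁻¹ (f' (τ a)) := fun _ _ => rfl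
  have hΘM : ∀ f' ∈ HomG r (layer d 0) A Y, Θ0 f' ∈ HomG r (layer d 0) A Y := by
    intro f' hf'
    refine ⟨fun g hg a a' h => ?_, fun a => ?_⟩
    · rw [hΘ0, hΘ0, hf'.1 _ (layer_conj _ hg) (τ a) (τ a') (hτeq g hg a a' h), ← r_mul, ← r_mul]
      congr 2
      group
    · rw [hΘ0]
      have h1 := hYΦ (-((n : ℤ) + 1)) _ (hf'.2 (τ a))
      have h2 : Φ ^ (-((n : ℤ) + 1)) = (Φ ^ (n + 1))⁻¹ := by
        rw [zpow_neg]
        norm_cast
      rwa [h2] at h1
  let M := HomG r (layer d 0) A Y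
  let Θ : M →ₗ[E] M := Θ0.restrict hΘM
  have hAsub : A.subtype ∈ M := ⟨fun g _ a a' h => h, fun a => hAY a.2⟩
  have hnt : Nontrivial M := by
    refine ⟨⟨⟨A.subtype, hAsub⟩, 0, fun h => hA.1 ?_⟩⟩
    have h1 : A.subtype = 0 := congrArg Subtype.val h
    rw [eq_bot_iff]
    intro a ha
    exact congrArg (fun f : A →ₗ[E] V => f ⟨a, ha⟩) h1
  obtain ⟨c, hc⟩ := Module.End.exists_eigenvalue Θ
  obtain ⟨f', hf'⟩ := hc.exists_hasEigenvector
  have hf'0 : (f' : A →ₗ[E] V) ≠ 0 := fun h => hf'.2 (Subtype.ext h)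
  have heig : ∀ a, r (Φ ^ (n + 1))⁻¹ (f'.1 (τ a)) = c • f'.1 a := by
    intro a
    have h1 := congrArg Subtype.val hf'.apply_eq_smul
    exact congrArg (fun f : A →ₗ[E] V => f a) h1
  set W := LinearMap.range (f' : A →ₗ[E] V) with hW
  have hWir : Ir r (layer d 0) W := ir_range hA f'.2 hf'0
  have hWY : W ≤ Y := by
    rintro _ ⟨a, rfl⟩
    exact f'.2.2 a
  have hWΦ : ∀ w ∈ W, r (Φ ^ (n + 1))⁻¹ w ∈ W := by
    rintro _ ⟨a, rfl⟩
    obtain ⟨a', rfl⟩ := hτsurj a
    rw [heig]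
    exact W.smul_mem _ ⟨a', rfl⟩
  have hWst : St r (layer d (m0 * (n + 1))) W := by
    intro g hg w hw
    obtain ⟨t, g0, hg0, rfl, _⟩ := layer_split hF hg
    rw [r_mul]
    refine hWir.2.1 g0 hg0 _ ?_
    have h1 := stable_zpow hWΦ (-t) w hw
    have h2 : (Φ ^ (n + 1))⁻¹ ^ (-t) = (F ^ (m0 * (n + 1))) ^ t := by
      rw [hΦ, ← pow_mul, inv_zpow, zpow_neg, inv_inv]
    rwa [h2] at h1
  rcases hmin W hWY ⟨_, Nat.mul_pos hm0 (Nat.succ_pos n), hWst⟩ with h1 | h1
  · exact absurd h1 hWir.1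
  · rw [← h1]; exact hWir

end Pool.Agent.K1H13.GO
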