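import Mathlib
import Pool.Agent.K1H13.GO.Geo

/-!
# Irreducible subspaces for two commuting groups are tensor products
-/

namespace Pool.Agent.K1H13.GO

open Module TensorProduct

variable {E : Type*} [Field E] {V : Type*} [AddCommGroup V] [Module E V]
  {Q : Type*} [Group Q] {r : Representation E Q V}

/-- Schur's lemma -/
theorem schur [IsAlgClosed E] [FiniteDimensional E V] {S : Set Q} {A : Submodule E V}
    (hA : Ir r S A) (σ : A →ₗ[E] A)
    (hσ : ∀ g ∈ S, ∀ a a' : A, (a' : V) = r g a → (σ a' : V) = r g (σ a)) :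
    ∃ c : E, ∀ a, σ a = c • a := by
  have hnt : Nontrivial A := Submodule.nontrivial_iff_ne_bot.2 hA.1
  obtain ⟨c, hc⟩ := Module.End.exists_eigenvalue σ
  obtain ⟨v, hv⟩ := hc.exists_hasEigenvector
  refine ⟨c, ?_⟩
  set f : A →ₗ[E] V := A.subtype ∘ₗ (σ - c • LinearMap.id) with hf
  have hfa : ∀ a, f a = (σ a : V) - c • (a : V) := fun a => rfl
  have hfM : f ∈ HomG r S A A := by
    refine ⟨fun g hg a a' h => ?_, fun a => ?_⟩
    · rw [hfa, hfa, hσ g hg a a' h, map_sub, map_smul, h]
    · rw [hfa]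
      exact A.sub_mem (σ a).2 (A.smul_mem c a.2)
  have h0 : f = 0 := by
    by_contra hne
    apply hv.2
    apply inj_of_ne hA hfM hne
    rw [map_zero, hfa, hv.apply_eq_smul, sub_eq_zero]
    rfl
  intro a
  have h1 := hfa a
  rw [h0, LinearMap.zero_apply] at h1
  exact Subtype.ext (sub_eq_zero.1 h1.symm)

/-- The sum of the images of independent equivariant maps is direct. -/
theorem direct [IsAlgClosed E] [FiniteDimensional E V] {S : Set Q} {A Y : Submodule E V}
    (hA : Ir r S A) : ∀ (n : ℕ) (f : Fin n → (A →ₗ[E] V)), (∀ i, f i ∈ HomG r S A Y) →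
      LinearIndependent E f → ∀ a : Fin n → A, ∑ i, f i (a i) = 0 → a = 0 := by
  classical
  intro n
  induction n with
  | zero => intro f _ _ a _; exact Subsingleton.elim _ _
  | succ n ih =>
    intro f hf hli a ha
    rw [Fin.sum_univ_castSucc] at ha
    have hli' : LinearIndependent E (fun i : Fin n => f i.castSucc) :=
      hli.comp _ (Fin.castSucc_injective n)
    have ih' := ih (fun i => f i.castSucc) (fun i => hf _) hli'
    let T : (Fin n → A) →ₗ[E] V := ∑ i, (f i.castSucc) ∘ₗ (LinearMap.proj i)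
    have hT : ∀ b, T b = ∑ i, f i.castSucc (b i) := fun b => by
      simp [T, LinearMap.sum_apply]
    have hTinj : Function.Injective T := by
      rw [injective_iff_map_eq_zero]
      intro b hb
      exact ih' b (by rw [← hT]; exact hb)
    have hTst : St r S (LinearMap.range T) := by
      rintro g hg _ ⟨b, rfl⟩
      refine ⟨fun i => ⟨r g (b i), hA.2.1 g hg _ (b i).2⟩, ?_⟩
      rw [hT, hT, map_sum]
      refine Finset.sum_congr rfl fun i _ => ?_
      exact (hf i.castSucc).1 g hg (b i) _ rfl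
    set fl := f (Fin.last n) with hfl
    have hfl0 : fl ≠ 0 := hli.ne_zero _
    have hflir := ir_range hA (hf (Fin.last n)) hfl0
    by_cases h0 : fl (a (Fin.last n)) = 0
    · -- the last one vanishes
      have h1 : a (Fin.last n) = 0 := inj_of_ne hA (hf _) hfl0 (by rw [h0, map_zero])
      rw [h0, add_zero] at ha
      have h2 := ih' (fun i => a i.castSucc) ha
      funext i
      refine Fin.lastCases ?_ (fun j => ?_) i
      · exact h1
      · exact congrFun h2 j
    · exfalso
      have h1 : LinearMap.range fl ≤ LinearMap.range T := by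
        rcases hflir.2.2 _ inf_le_left (hflir.2.1.inf hTst) with h2 | h2
        · exfalso
          apply h0
          have h3 : fl (a (Fin.last n)) ∈ LinearMap.range fl ⊓ LinearMap.range T := by
            refine ⟨⟨_, rfl⟩, ⟨fun i => -(a i.castSucc), ?_⟩⟩
            rw [hT]
            have h4 : ∑ i : Fin n, f i.castSucc (-(a i.castSucc)) =
                -∑ i : Fin n, f i.castSucc (a i.castSucc) := by
              rw [← Finset.sum_neg_distrib]
              exact Finset.sum_congr rfl fun i _ => map_neg _ _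
            rw [h4]
            exact (eq_neg_of_add_eq_zero_right ha).symm
          rw [h2] at h3
          exact h3
        · rw [← h2]; exact inf_le_right
      let e := LinearEquiv.ofInjective T hTinj
      let σ : A →ₗ[E] (Fin n → A) := e.symm.toLinearMap ∘ₗ
        (fl.codRestrict (LinearMap.range T) fun x => h1 ⟨x, rfl⟩)
      have hσ : ∀ x, T (σ x) = fl x := by
        intro x
        have h2 : e (σ x) = ⟨fl x, h1 ⟨x, rfl⟩⟩ := by
          change e (e.symm _) = _
          rw [e.apply_symm_apply]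
          rfl
        exact congrArg Subtype.val h2
      have hsc : ∀ i, ∃ c : E, ∀ x, σ x i = c • x := by
        intro i
        refine schur hA ((LinearMap.proj i) ∘ₗ σ) ?_
        intro g hg x x' hx
        have h2 : T (σ x') = T (fun j => ⟨r g (σ x j), hA.2.1 g hg _ (σ x j).2⟩) := by
          rw [hσ, (hf (Fin.last n)).1 g hg x x' hx, hT, ← hfl, ← hσ, hT, map_sum]
          refine Finset.sum_congr rfl fun j _ => ?_
          exact ((hf j.castSucc).1 g hg (σ x j) _ rfl).symm
        have h3 := hTinj h2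
        exact congrArg Subtype.val (congrFun h3 i)
      choose c hc using hsc
      have h2 : fl = ∑ i, c i • f i.castSucc := by
        ext x
        rw [← hσ, hT, LinearMap.sum_apply]
        refine Finset.sum_congr rfl fun i _ => ?_
        rw [hc, map_smul, LinearMap.smul_apply]
      have h3 := Fintype.linearIndependent_iff.1 hli (Fin.snoc (fun i => c i) (-1)) (by
        rw [Fin.sum_univ_castSucc]
        simp only [Fin.snoc_castSucc, Fin.snoc_last]
        rw [← hfl, ← h2, neg_one_smul, add_neg_cancel]) (Fin.last n)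
      rw [Fin.snoc_last] at h3
      exact one_ne_zero (neg_eq_zero.1 h3)

/-- the evaluation map -/
def ev (r : Representation E Q V) (S : Set Q) (A Y : Submodule E V) :
    A →ₗ[E] (HomG r S A Y) →ₗ[E] V :=
  LinearMap.mk₂ E (fun a f => f.1 a) (fun _ _ _ => map_add _ _ _) (fun _ _ _ => map_smul _ _ _)
    (fun _ _ _ => rfl) (fun _ _ _ => rfl)

theorem ev_apply {S : Set Q} {A Y : Submodule E V} (a : A) (f : HomG r S A Y) :
    ev r S A Y a f = f.1 a := rfl

theorem ev_injective [IsAlgClosed E] [FiniteDimensional E V] {S : Set Q} {A Y : Submodule E V}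
    (hA : Ir r S A) : Function.Injective (TensorProduct.lift (ev r S A Y)) := by
  rw [injective_iff_map_eq_zero]
  intro x hx
  let b := Module.finBasis E (HomG r S A Y)
  obtain ⟨m, rfl⟩ := TensorProduct.eq_repr_basis_right b x
  rw [map_finsuppSum] at hx
  simp only [TensorProduct.lift.tmul, ev_apply] at hx
  rw [Finsupp.sum_fintype _ _ (fun i => map_zero _)] at hx
  have hli : LinearIndependent E (fun i => (b i : A →ₗ[E] V)) :=
    b.linearIndependent.map' (HomG r S A Y).subtype (Submodule.ker_subtype _)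
  have h1 := direct hA _ (fun i => (b i : A →ₗ[E] V)) (fun i => (b i).2) hli (fun i => m i) hx
  have h2 : m = 0 := by
    ext i
    exact congrArg Subtype.val (congrFun h1 i)
  rw [h2, Finsupp.sum_zero_index]

variable {S₁ S₂ : Set Q} {A Y : Submodule E V}

theorem comp_mem (hcomm : ∀ g ∈ S₁, ∀ h ∈ S₂, g * h = h * g) (hY : St r (S₁ ∪ S₂) Y) {h : Q}
    (hh : h ∈ S₂) {f : A →ₗ[E] V} (hf : f ∈ HomG r S₁ A Y) : (r h) ∘ₗ f ∈ HomG r S₁ A Y := by
  refine ⟨fun g hg a a' ha => ?_, fun a => hY h (Or.inr hh) _ (hf.2 a)⟩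
  rw [LinearMap.comp_apply, LinearMap.comp_apply, hf.1 g hg a a' ha, ← r_mul, ← r_mul,
    hcomm g hg h hh]

/-- the image of the evaluation on a stable subspace of maps -/
theorem st_ev (hcomm : ∀ g ∈ S₁, ∀ h ∈ S₂, g * h = h * g) (hY : St r (S₁ ∪ S₂) Y)
    (hA : St r S₁ A) (N : Submodule E (HomG r S₁ A Y))
    (hN : ∀ h (hh : h ∈ S₂), ∀ f ∈ N, (⟨(r h) ∘ₗ f.1, comp_mem hcomm hY hh f.2⟩ :
      HomG r S₁ A Y) ∈ N) :
    St r (S₁ ∪ S₂) (⨆ f : N, LinearMap.range f.1.1) := by
  have key : ∀ g, (∀ f : N, ∀ a : A, r g (f.1.1 a) ∈ (⨆ f : N, LinearMap.range f.1.1)) →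
      ∀ u ∈ (⨆ f : N, LinearMap.range f.1.1), r g u ∈ (⨆ f : N, LinearMap.range f.1.1) := by
    intro g h
    have h1 : (⨆ f : N, LinearMap.range f.1.1) ≤ (⨆ f : N, LinearMap.range f.1.1).comap (r g) := by
      refine iSup_le fun f => ?_
      rintro _ ⟨a, rfl⟩
      exact h f a
    exact fun u hu => h1 hu
  rintro g (hg | hg) u hu
  · refine key g (fun f a => ?_) u hu
    have h1 := f.1.2.1 g hg a ⟨r g a, hA g hg a a.2⟩ rfl
    rw [← h1]
    exact (le_iSup (fun f : N => LinearMap.range f.1.1) f) ⟨_, rfl⟩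
  · refine key g (fun f a => ?_) u hu
    exact (le_iSup (fun f : N => LinearMap.range f.1.1) ⟨_, hN g hg f.1 f.2⟩) ⟨a, rfl⟩

theorem ev_range_top (hcomm : ∀ g ∈ S₁, ∀ h ∈ S₂, g * h = h * g) (hY : Ir r (S₁ ∪ S₂) Y)
    (hA : Ir r S₁ A) (N : Submodule E (HomG r S₁ A Y))
    (hN : ∀ h (hh : h ∈ S₂), ∀ f ∈ N, (⟨(r h) ∘ₗ f.1, comp_mem hcomm hY.2.1 hh f.2⟩ :
      HomG r S₁ A Y) ∈ N) (hN0 : N ≠ ⊥) :
    (⨆ f : N, LinearMap.range f.1.1) = Y := by
  have hle : (⨆ f : N, LinearMap.range f.1.1) ≤ Y := by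
    refine iSup_le fun f => ?_
    rintro _ ⟨a, rfl⟩
    exact f.1.2.2 a
  rcases hY.2.2 _ hle (st_ev hcomm hY.2.1 hA.2.1 N hN) with h | h
  · exfalso
    apply hN0
    rw [eq_bot_iff]
    intro f hf
    have h1 : LinearMap.range f.1 ≤ ⊥ := by
      rw [← h]
      exact le_iSup (fun f : N => LinearMap.range f.1.1) ⟨f, hf⟩
    rw [Submodule.mem_bot]
    exact Subtype.ext (LinearMap.range_eq_bot.1 (le_bot_iff.1 h1))
  · exact h

theorem ev_range (hcomm : ∀ g ∈ S₁, ∀ h ∈ S₂, g * h = h * g) (hY : Ir r (S₁ ∪ S₂) Y)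
    (hA : Ir r S₁ A) (N : Submodule E (HomG r S₁ A Y))
    (hN : ∀ h (hh : h ∈ S₂), ∀ f ∈ N, (⟨(r h) ∘ₗ f.1, comp_mem hcomm hY.2.1 hh f.2⟩ :
      HomG r S₁ A Y) ∈ N) (hN0 : N ≠ ⊥) :
    LinearMap.range ((TensorProduct.lift (ev r S₁ A Y)) ∘ₗ
      (TensorProduct.map LinearMap.id N.subtype)) = Y := by
  refine Eq.trans (le_antisymm ?_ (iSup_le fun f => ?_)) (ev_range_top hcomm hY hA N hN hN0)
  · rintro _ ⟨x, rfl⟩
    induction x using TensorProduct.induction_on with
    | zero => rw [map_zero]; exact Submodule.zero_mem _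
    | tmul a f =>
      exact (le_iSup (fun f : N => LinearMap.range f.1.1) f) ⟨a, rfl⟩
    | add x y hx hy => rw [map_add]; exact Submodule.add_mem _ hx hy
  · rintro _ ⟨a, rfl⟩
    exact ⟨a ⊗ₜ f, rfl⟩

/-- the space of maps is irreducible for the second group -/
theorem hom_irr [IsAlgClosed E] [FiniteDimensional E V]
    (hcomm : ∀ g ∈ S₁, ∀ h ∈ S₂, g * h = h * g) (hY : Ir r (S₁ ∪ S₂) Y)
    (hA : Ir r S₁ A) (N : Submodule E (HomG r S₁ A Y))
    (hN : ∀ h (hh : h ∈ S₂), ∀ f ∈ N, (⟨(r h) ∘ₗ f.1, comp_mem hcomm hY.2.1 hh f.2⟩ :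
      HomG r S₁ A Y) ∈ N) : N = ⊥ ∨ N = ⊤ := by
  by_cases hN0 : N = ⊥
  · exact Or.inl hN0
  right
  have h1 := ev_range hcomm hY hA N hN hN0
  have h2 : finrank E Y ≤ finrank E A * finrank E N := by
    refine (le_of_eq (congrArg (fun Z : Submodule E V => finrank E Z) h1.symm)).trans ?_
    have hfree : Module.Free E N := Module.Free.of_divisionRing E N
    have h5 : finrank E (A ⊗[E] N) = finrank E A * finrank E N := Module.finrank_tensorProduct
    rw [← h5]
    exact LinearMap.finrank_range_le _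
  have h3 : finrank E A * finrank E (HomG r S₁ A Y) ≤ finrank E Y := by
    rw [← Module.finrank_tensorProduct]
    have h4 : ∀ x, TensorProduct.lift (ev r S₁ A Y) x ∈ Y := by
      intro x
      induction x using TensorProduct.induction_on with
      | zero => rw [map_zero]; exact Submodule.zero_mem _
      | tmul a f => exact f.2.2 a
      | add x y hx hy => rw [map_add]; exact Submodule.add_mem _ hx hy
    refine LinearMap.finrank_le_finrank_of_injective
      (f := (TensorProduct.lift (ev r S₁ A Y)).codRestrict Y h4) ?_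
    intro x y hxy
    exact ev_injective hA (congrArg Subtype.val hxy)
  have hpos : 0 < finrank E A := by
    have : Nontrivial A := Submodule.nontrivial_iff_ne_bot.2 hA.1
    exact finrank_pos
  refine Submodule.eq_top_of_finrank_eq (le_antisymm (Submodule.finrank_le _) ?_)
  exact Nat.le_of_mul_le_mul_left (h3.trans h2) hpos

theorem hom_nontrivial (hA : Ir r S₁ A) (hAY : A ≤ Y) : Nontrivial (HomG r S₁ A Y) := by
  refine ⟨⟨⟨A.subtype, fun g _ a a' h => h, fun a => hAY a.2⟩, 0, fun h => hA.1 ?_⟩⟩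
  have h1 : A.subtype = 0 := congrArg Subtype.val h
  rw [eq_bot_iff]
  intro a ha
  exact congrArg (fun f : A →ₗ[E] V => f ⟨a, ha⟩) h1

end Pool.Agent.K1H13.GO
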