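import Mathlib
import Pool.Agent.K1H13.GO.Tensor

/-!
# Determinants
-/

namespace Pool.Agent.K1H13.GO

open Module TensorProduct

variable {E : Type*} [Field E] {V : Type*} [AddCommGroup V] [Module E V]
  {Q : Type*} [Group Q] {r : Representation E Q V}

/-- the determinant on a stable subspace -/
noncomputable def dt (r : Representation E Q V) (U : Submodule E V) (x : Q)
    (h : ∀ u ∈ U, r x u ∈ U) : E := LinearMap.det ((r x).restrict h)

theorem dt_mul {U : Submodule E V} {x y : Q} (hx : ∀ u ∈ U, r x u ∈ U) (hy : ∀ u ∈ U, r y u ∈ U)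
    (hxy : ∀ u ∈ U, r (x * y) u ∈ U) : dt r U (x * y) hxy = dt r U x hx * dt r U y hy := by
  have h1 : (r (x * y)).restrict hxy = (r x).restrict hx * (r y).restrict hy :=
    LinearMap.ext fun u => Subtype.ext (r_mul (r := r) x y (u : V))
  rw [dt, dt, dt, ← map_mul, h1]

theorem dt_one {U : Submodule E V} (h : ∀ u ∈ U, r 1 u ∈ U) : dt r U 1 h = 1 := by
  have h1 : (r 1).restrict h = (1 : Module.End E U) := by
    ext u
    change r 1 (u : V) = u
    rw [map_one]
    rfl
  rw [dt, h1]
  exact LinearMap.det_id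

theorem dt_pow {U : Submodule E V} {x : Q} (hx : ∀ u ∈ U, r x u ∈ U) (n : ℕ)
    (hxn : ∀ u ∈ U, r (x ^ n) u ∈ U) : dt r U (x ^ n) hxn = dt r U x hx ^ n := by
  rw [dt, dt, ← map_pow]
  congr 1
  refine LinearMap.ext fun u => Subtype.ext ?_
  have h1 : ∀ n : ℕ, ((((r x).restrict hx) ^ n) u : V) = r (x ^ n) u := by
    intro n
    induction n with
    | zero => rw [pow_zero, pow_zero, map_one]; rfl
    | succ n ih =>
      rw [pow_succ', pow_succ', r_mul, ← ih]
      rfl
  exact (h1 n).symm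

theorem dt_congr {U U' : Submodule E V} (hU : U = U') {x x' : Q} (hx : x = x')
    (h : ∀ u ∈ U, r x u ∈ U) (h' : ∀ u ∈ U', r x' u ∈ U') : dt r U x h = dt r U' x' h' := by
  subst hU
  subst hx
  rfl

theorem dt_conj {U : Submodule E V} {x w : Q} (h : ∀ u ∈ U, r (w⁻¹ * x * w) u ∈ U)
    (h' : ∀ u ∈ U.map (r w), r x u ∈ U.map (r w)) :
    dt r (U.map (r w)) x h' = dt r U (w⁻¹ * x * w) h := by
  let e := Submodule.equivMapOfInjective (r w) (r_inj w) U
  have he : ∀ u, (e u : V) = r w u := fun u => rfl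
  rw [dt, dt, ← LinearMap.det_conj _ e]
  congr 1
  ext v
  obtain ⟨u, rfl⟩ := e.surjective v
  change r x (e u : V) = _
  rw [LinearMap.comp_apply, LinearMap.comp_apply, LinearEquiv.coe_coe, LinearEquiv.coe_coe,
    e.symm_apply_apply, he, he]
  change _ = r w (r (w⁻¹ * x * w) u)
  rw [← r_mul, ← r_mul]
  congr 2
  group

theorem dt_sup [FiniteDimensional E V] {Z U : Submodule E V} (hd : Disjoint Z U) {x : Q}
    (hZ : ∀ u ∈ Z, r x u ∈ Z) (hU : ∀ u ∈ U, r x u ∈ U) (h : ∀ u ∈ Z ⊔ U, r x u ∈ Z ⊔ U) :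
    dt r (Z ⊔ U) x h = dt r Z x hZ * dt r U x hU := by
  let f : (Z × U) →ₗ[E] (Z ⊔ U : Submodule E V) :=
    (Z.subtype.coprod U.subtype).codRestrict (Z ⊔ U) fun p =>
      Submodule.add_mem_sup p.1.2 p.2.2
  have hf : ∀ p, (f p : V) = p.1 + p.2 := fun p => rfl
  have hbij : Function.Bijective f := by
    constructor
    · rw [injective_iff_map_eq_zero]
      intro p hp
      have h1 : (p.1 : V) + p.2 = 0 := congrArg Subtype.val hp
      have h2 : (p.1 : V) ∈ Z ⊓ U := by
        refine ⟨p.1.2, ?_⟩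
        rw [eq_neg_of_add_eq_zero_left h1]
        exact U.neg_mem p.2.2
      rw [disjoint_iff.1 hd, Submodule.mem_bot] at h2
      rw [h2, zero_add] at h1
      exact Prod.ext (Subtype.ext h2) (Subtype.ext h1)
    · rintro ⟨v, hv⟩
      obtain ⟨z, hz, u, hu, h1⟩ := Submodule.mem_sup.1 hv
      exact ⟨(⟨z, hz⟩, ⟨u, hu⟩), Subtype.ext h1⟩
  let e := LinearEquiv.ofBijective f hbij
  rw [dt, dt, dt, ← LinearMap.det_prodMap, ← LinearMap.det_conj _ e]
  congr 1
  apply LinearMap.ext
  intro v
  obtain ⟨p, rfl⟩ := e.surjective v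
  apply Subtype.ext
  rw [LinearMap.comp_apply, LinearMap.comp_apply, LinearEquiv.coe_coe, LinearEquiv.coe_coe,
    e.symm_apply_apply]
  change r x (f p : V) = (f _ : V)
  rw [hf, hf, map_add]
  rfl

theorem mem_map_iff {U : Submodule E V} {w : Q} {v : V} : v ∈ U.map (r w) ↔ r w⁻¹ v ∈ U := by
  constructor
  · rintro ⟨u, hu, rfl⟩
    rw [r_inv]; exact hu
  · intro h
    exact ⟨_, h, r_inv' _ _⟩

theorem st_map {N : Subgroup Q} [hN : N.Normal] {U : Submodule E V} (h : St r N U) (w : Q) :
    St r N (U.map (r w)) := by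
  rintro g hg _ ⟨u, hu, rfl⟩
  rw [mem_map_iff, ← r_mul, ← r_mul]
  refine h _ ?_ u hu
  have h1 := hN.conj_mem g hg w⁻¹
  rwa [inv_inv] at h1

theorem ir_map {N : Subgroup Q} [hN : N.Normal] {U : Submodule E V} (h : Ir r N U) (w : Q) :
    Ir r N (U.map (r w)) := by
  refine ⟨fun h0 => h.1 ?_, st_map h.2.1 w, fun W hW hWS => ?_⟩
  · rw [eq_bot_iff]
    intro u hu
    have h1 : r w u ∈ U.map (r w) := ⟨u, hu, rfl⟩
    rw [h0, Submodule.mem_bot] at h1
    rw [Submodule.mem_bot]
    exact r_inj (r := r) w (by rw [h1, map_zero])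
  · have h1 : (W.map (r w⁻¹)).map (r w) = W := by
      ext v
      rw [mem_map_iff, mem_map_iff, inv_inv, r_inv']
    have h2 : W.map (r w⁻¹) ≤ U := by
      rintro _ ⟨v, hv, rfl⟩
      exact mem_map_iff.1 (hW hv)
    rcases h.2.2 _ h2 (st_map hWS w⁻¹) with h3 | h3
    · left
      rw [← h1, h3, Submodule.map_bot]
    · right
      rw [← h1, h3]

/-- **Determinants on irreducible representations and their constituents.** -/
theorem det_chain [FiniteDimensional E V] {N H : Subgroup Q} [hN : N.Normal] (hNH : N ≤ H)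
    {U Y : Submodule E V} (hU : Ir r N U) (hY : Ir r H Y) (hUY : U ≤ Y) {x : Q} (hx : x ∈ N)
    {n : ℕ} (hn : ∀ w : Q, dt r U (w⁻¹ * x * w) (hU.2.1 _ (by
      have h1 := hN.conj_mem x hx w⁻¹
      rwa [inv_inv] at h1)) ^ n = dt r U x (hU.2.1 x hx) ^ n) :
    ∃ k, 0 < k ∧ dt r Y x (hY.2.1 x (hNH hx)) ^ n = dt r U x (hU.2.1 x hx) ^ (n * k) := by
  have key : ∀ (l : ℕ) (Z : Submodule E V) (hZ : St r N Z), Z ≤ Y → finrank E Y - finrank E Z = l →
      (∃ k, 0 < k ∧ dt r Z x (hZ x hx) ^ n = dt r U x (hU.2.1 x hx) ^ (n * k)) →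
      ∃ k, 0 < k ∧ dt r Y x (hY.2.1 x (hNH hx)) ^ n = dt r U x (hU.2.1 x hx) ^ (n * k) := by
    intro l
    induction l using Nat.strong_induction_on with
    | _ l ih =>
      rintro Z hZ hZY hl ⟨k, hk, hk'⟩
      by_cases hall : ∀ w ∈ H, U.map (r w) ≤ Z
      · -- everything
        have h1 : (⨆ w : H, U.map (r w)) = Y := by
          have hle : (⨆ w : H, U.map (r w)) ≤ Y := by
            refine iSup_le fun w => ?_
            rintro _ ⟨u, hu, rfl⟩
            exact hY.2.1 w w.2 u (hUY hu)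
          have hst : St r H (⨆ w : H, U.map (r w)) := by
            intro g hg
            have h2 : (⨆ w : H, U.map (r w)) ≤ (⨆ w : H, U.map (r w)).comap (r g) := by
              refine iSup_le fun w => ?_
              rintro _ ⟨u, hu, rfl⟩
              refine (le_iSup (fun w : H => U.map (r w)) (⟨g, hg⟩ * w)) ?_
              exact ⟨u, hu, r_mul _ _ _⟩
            exact fun u hu => h2 hu
          rcases hY.2.2 _ hle hst with h | h
          · exfalso
            apply hU.1
            rw [eq_bot_iff, ← h]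
            refine le_trans ?_ (le_iSup (fun w : H => U.map (r w)) 1)
            intro u hu
            refine ⟨u, hu, ?_⟩
            change r 1 u = u
            rw [map_one]
            rfl
          · exact h
        have h2 : Z = Y := le_antisymm hZY (by
          rw [← h1]
          exact iSup_le fun w => hall w w.2)
        subst h2
        exact ⟨k, hk, hk'⟩
      · push Not at hall
        obtain ⟨w, hw, hwZ⟩ := hall
        have hir := ir_map hU w
        have hd : Disjoint Z (U.map (r w)) := by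
          rw [disjoint_iff]
          rcases hir.2.2 _ inf_le_right (hZ.inf hir.2.1) with h | h
          · exact h
          · exact absurd (h ▸ inf_le_left) hwZ
        have hsup : Z ⊔ U.map (r w) ≤ Y := by
          refine sup_le hZY ?_
          rintro _ ⟨u, hu, rfl⟩
          exact hY.2.1 w hw u (hUY hu)
        have hlt : finrank E Z < finrank E (Z ⊔ U.map (r w) : Submodule E V) := by
          refine Submodule.finrank_lt_finrank_of_lt (lt_of_le_of_ne le_sup_left fun h => hwZ ?_)
          rw [h]; exact le_sup_right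
        have hle := Submodule.finrank_mono (R := E) hsup
        refine ih (finrank E Y - finrank E (Z ⊔ U.map (r w) : Submodule E V)) (by omega) _
          (hZ.sup hir.2.1) hsup rfl ⟨k + 1, Nat.succ_pos k, ?_⟩
        rw [dt_sup hd (hZ x hx) (hir.2.1 x hx), mul_pow, hk', dt_conj (hU.2.1 _ (by
          have h1 := hN.conj_mem x hx w⁻¹
          rwa [inv_inv] at h1)), hn w, ← pow_add]
        congr 1
  exact key _ U hU.2.1 hUY rfl ⟨1, one_pos, by rw [mul_one]⟩

end Pool.Agent.K1H13.GO
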