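import Mathlib

/-!
# Lisse sheaves on products of varieties over finite fields: notions

The Weil group `W` of a geometrically connected smooth variety over a finite field comes with its
degree `W → ℤ` (written multiplicatively) whose kernel is the geometric fundamental group.
-/

namespace Pool.Agent.K1H13.GO

open Module

variable {W W₁ W₂ : Type} [Group W] [Group W₁] [Group W₂]

/-- The subgroup of the elements whose degree is divisible by `m`: the Weil group of the variety over
the extension of degree `m` of the finite field. -/
def baseChange (deg : W →* Multiplicative ℤ) (m : ℕ) : Subgroup W where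
  carrier := {g | (m : ℤ) ∣ Multiplicative.toAdd (deg g)}
  one_mem' := by
    rw [Set.mem_ofPred_eq, map_one]
    exact dvd_zero _
  mul_mem' := fun {a b} ha hb => by
    rw [Set.mem_ofPred_eq, map_mul]
    exact dvd_add ha hb
  inv_mem' := fun {a} ha => by
    rw [Set.mem_ofPred_eq, map_inv]
    exact (dvd_neg).2 ha

/-- The pairs of elements of the same degree: the Weil group of the product of two varieties, one of
them proper. -/
def fibreProduct (deg₁ : W₁ →* Multiplicative ℤ) (deg₂ : W₂ →* Multiplicative ℤ) :
    Subgroup (W₁ × W₂) where
  carrier := {p | deg₁ p.1 = deg₂ p.2}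
  one_mem' := by
    rw [Set.mem_ofPred_eq, Prod.fst_one, Prod.snd_one, map_one, map_one]
  mul_mem' := fun {a b} ha hb => by
    rw [Set.mem_ofPred_eq] at ha hb ⊢
    rw [Prod.fst_mul, Prod.snd_mul, map_mul, map_mul, ha, hb]
  inv_mem' := fun {a} ha => by
    rw [Set.mem_ofPred_eq] at ha ⊢
    rw [Prod.fst_inv, Prod.snd_inv, map_inv, map_inv, ha]

section notions

variable (E : Type) [Field E]

/-- Class field theory (Deligne, Weil II, 1.3.1): the continuous characters of open subgroups of
finite index are of finite order on the elements of degree zero. -/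
def GeometricCharactersFinite [TopologicalSpace E] [TopologicalSpace W]
    (deg : W →* Multiplicative ℤ) : Prop :=
  ∀ Δ : Subgroup W, IsOpen (Δ : Set W) → Δ.FiniteIndex → ∀ ψ : Δ →* E, Continuous ψ →
    ∃ n : ℕ, 0 < n ∧ ∀ g : Δ, deg g = 1 → ψ g ^ n = 1

variable {E} {G A : Type} [Group G] [AddCommGroup A] [Module E A]

/-- All matrix coefficients are continuous. -/
def IsContinuousRep [TopologicalSpace E] [TopologicalSpace G] (ρ : Representation E G A) : Prop :=
  ∀ (l : Dual E A) (a : A), Continuous fun g => l (ρ g a)

/-- The determinant is a character of finite order. -/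
def FiniteDeterminant (ρ : Representation E G A) : Prop :=
  ∃ n : ℕ, 0 < n ∧ ∀ g, LinearMap.det (ρ g) ^ n = 1

/-- The representation of the Weil group (of the variety over the extension of degree `m`) is
irreducible as a representation of the geometric fundamental group. -/
def GeometricallyIrreducible (deg : W →* Multiplicative ℤ) (m : ℕ)
    (ρ : Representation E (baseChange deg m) A) : Prop :=
  Nontrivial A ∧ ∀ U : Submodule E A,
    (∀ g : baseChange deg m, deg g = 1 → ∀ u ∈ U, ρ g u ∈ U) → U = ⊥ ∨ U = ⊤

end notions

end Pool.Agent.K1H13.GO
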