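import Mathlib
import Pool.Agent.K1H13.GO.Det
import Pool.Agent.K1H13.GO.Notions

/-!
# The decomposition theorem, algebraic form
-/

namespace Pool.Agent.K1H13.GO

open Module TensorProduct

theorem det_tmap {E : Type*} [Field E] {A B : Type*} [AddCommGroup A] [Module E A]
    [AddCommGroup B] [Module E B] [FiniteDimensional E A] [FiniteDimensional E B]
    (f : A →ₗ[E] A) (g : B →ₗ[E] B) :
    LinearMap.det (TensorProduct.map f g) =
      LinearMap.det f ^ finrank E B * LinearMap.det g ^ finrank E A := by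
  classical
  let a := Module.finBasis E A
  let b := Module.finBasis E B
  rw [← LinearMap.det_toMatrix (a.tensorProduct b), TensorProduct.toMatrix_map,
    Matrix.det_kronecker, LinearMap.det_toMatrix, LinearMap.det_toMatrix, Fintype.card_fin,
    Fintype.card_fin]

section chain

variable {E : Type} [Field E] {V : Type} [AddCommGroup V] [Module E V] [FiniteDimensional E V]
  {W : Type} [Group W] {ρ : Representation E W V} {deg : W →* Multiplicative ℤ}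

/-- The determinants of the constituents for subgroups of finite index are of finite order. -/
theorem det_sub (hirr : Ir ρ (⊤ : Subgroup W) ⊤) (hdet : FiniteDeterminant ρ)
    {H : Subgroup W}
    (hcft : ∀ Δ : Subgroup W, Δ = H ∨ Δ = H.normalCore → ∀ (U : Submodule E V) (hU : St ρ Δ U),
      ∃ n : ℕ, 0 < n ∧ ∀ (g : W) (hg : g ∈ Δ), deg g = 1 → dt ρ U g (hU g hg) ^ n = 1)
    (hH : H.FiniteIndex) {Y : Submodule E V} (hY : Ir ρ H Y) {F : W} (hF : F ∈ H)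
    (hsplit : ∀ g ∈ H, ∃ (t : ℤ) (g0 : W), g0 ∈ H ∧ deg g0 = 1 ∧ g = g0 * F ^ t) :
    ∃ n : ℕ, 0 < n ∧ ∀ (g : W) (hg : g ∈ H), dt ρ Y g (hY.2.1 g hg) ^ n = 1 := by
  classical
  obtain ⟨t, ht, hdet⟩ := hdet
  set N := H.normalCore with hN
  have hNf : N.FiniteIndex := inferInstance
  have hNH : N ≤ H := H.normalCore_le
  obtain ⟨U, hUY, hU⟩ := exists_ir (r := ρ) (S := N) _ Y rfl hY.1
    (fun g hg => hY.2.1 g (hNH hg))
  obtain ⟨n, _, hn'⟩ := hcft N (Or.inr rfl) U hU.2.1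
  obtain ⟨n', hn'0, hn''⟩ := hcft H (Or.inl rfl) Y hY.2.1
  set j := N.index with hj
  have hj0 : 0 < j := Nat.pos_of_ne_zero hNf.index_ne_zero
  set x := F ^ j with hx
  have hxN : x ∈ N := N.pow_index_mem F
  have hconj : ∀ w : W, w⁻¹ * x * w ∈ N := fun w => by
    have h1 := (inferInstance : N.Normal).conj_mem x hxN w⁻¹
    rwa [inv_inv] at h1
  have hne : ∀ (Z : Submodule E V) (g : W) (h : ∀ u ∈ Z, ρ g u ∈ Z), dt ρ Z g h ≠ 0 := by
    intro Z g h h0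
    have hb : Function.Bijective ((ρ g).restrict h) := by
      have hi : Function.Injective ((ρ g).restrict h) := by
        intro a b hab
        exact Subtype.ext (r_inj (r := ρ) g (congrArg Subtype.val hab))
      exact ⟨hi, LinearMap.injective_iff_surjective.1 hi⟩
    have h1 := (LinearEquiv.ofBijective _ hb).isUnit_det'
    exact h1.ne_zero h0
  have hkey : ∀ w : W, dt ρ U (w⁻¹ * x * w) (hU.2.1 _ (hconj w)) ^ n =
      dt ρ U x (hU.2.1 x hxN) ^ n := by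
    intro w
    have hy : x⁻¹ * (w⁻¹ * x * w) ∈ N := N.mul_mem (N.inv_mem hxN) (hconj w)
    have hy1 : deg (x⁻¹ * (w⁻¹ * x * w)) = 1 := by
      rw [map_mul, map_mul, map_mul, map_inv, map_inv, mul_right_comm (deg w)⁻¹,
        inv_mul_cancel, one_mul, inv_mul_cancel]
    have h1 : w⁻¹ * x * w = x * (x⁻¹ * (w⁻¹ * x * w)) := by group
    rw [dt_congr rfl h1 (hU.2.1 _ (hconj w)) (hU.2.1 _ (N.mul_mem hxN hy)),
      dt_mul (hU.2.1 x hxN) (hU.2.1 _ hy), mul_pow, hn' _ hy hy1, mul_one]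
  obtain ⟨k, hk, hk'⟩ := det_chain (H := H) hNH hU hY hUY hxN hkey
  obtain ⟨l, hl, hl'⟩ := det_chain (H := ⊤) le_top hU hirr le_top hxN hkey
  have htop : dt ρ ⊤ x (hirr.2.1 x trivial) = LinearMap.det (ρ x) := by
    let e : (⊤ : Submodule E V) ≃ₗ[E] V := Submodule.topEquiv
    rw [dt, ← LinearMap.det_conj _ e]
    congr 1
  have hU1 : dt ρ U x (hU.2.1 x hxN) ^ (n * l * t) = 1 := by
    rw [pow_mul, ← hl', htop, ← pow_mul, mul_comm n t, pow_mul, hdet, one_pow]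
  have hY1 : dt ρ Y x (hY.2.1 x (hNH hxN)) ^ (n * l * t) = 1 := by
    rw [mul_assoc n l t, pow_mul, hk', ← pow_mul, show n * k * (l * t) = n * l * t * k by ring,
      pow_mul, hU1, one_pow]
  have hF1 : dt ρ Y F (hY.2.1 F hF) ^ (j * (n * l * t)) = 1 := by
    rw [pow_mul, ← dt_pow (hY.2.1 F hF) j (hY.2.1 _ (H.pow_mem hF j))]
    exact hY1
  have hFz : ∀ (s : ℤ), dt ρ Y (F ^ s) (hY.2.1 _ (H.zpow_mem hF s)) ^ (j * (n * l * t)) = 1 := by
    intro s
    have hp : ∀ s : ℕ, dt ρ Y (F ^ s) (hY.2.1 _ (H.pow_mem hF s)) ^ (j * (n * l * t)) = 1 := by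
      intro s
      rw [dt_pow (hY.2.1 F hF), ← pow_mul, mul_comm, pow_mul, hF1, one_pow]
    rcases s with s | s
    · have h1 : F ^ (Int.ofNat s) = F ^ s := by rw [Int.ofNat_eq_natCast, zpow_natCast]
      rw [dt_congr rfl h1 _ (hY.2.1 _ (H.pow_mem hF s))]
      exact hp s
    · have h1 : F ^ (Int.negSucc s) = (F ^ (s + 1))⁻¹ := zpow_negSucc _ _
      have hi : (F ^ (s + 1))⁻¹ ∈ H := H.inv_mem (H.pow_mem hF _)
      rw [dt_congr rfl h1 _ (hY.2.1 _ hi)]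
      have h2 : dt ρ Y (F ^ (s + 1)) (hY.2.1 _ (H.pow_mem hF _)) *
          dt ρ Y (F ^ (s + 1))⁻¹ (hY.2.1 _ hi) = 1 := by
        rw [← dt_mul (hY.2.1 _ (H.pow_mem hF _)) (hY.2.1 _ hi)
          (hY.2.1 _ (H.mul_mem (H.pow_mem hF _) hi))]
        rw [dt_congr rfl (mul_inv_cancel (F ^ (s + 1))) _ (hY.2.1 _ H.one_mem)]
        exact dt_one _
      have h3 := hp (s + 1)
      have h4 := congrArg (fun z => z ^ (j * (n * l * t))) h2
      simp only [mul_pow, one_pow] at h4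
      rwa [h3, one_mul] at h4
  refine ⟨n' * (j * (n * l * t)), by positivity, fun g hg => ?_⟩
  obtain ⟨s, g0, hg0, hg1, rfl⟩ := hsplit g hg
  rw [dt_mul (hY.2.1 g0 hg0) (hY.2.1 _ (H.zpow_mem hF s)), mul_pow, pow_mul, hn'' g0 hg0 hg1,
    one_pow, one_mul, mul_comm n', pow_mul, hFz, one_pow]

end chain


section main

variable {E : Type} [Field E] [IsAlgClosed E] {V : Type} [AddCommGroup V] [Module E V]
  [FiniteDimensional E V] {W₁ W₂ : Type} [Group W₁] [Group W₂]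
  {deg₁ : W₁ →* Multiplicative ℤ} {deg₂ : W₂ →* Multiplicative ℤ}

/-- the degree on the fibre product -/
def dP (deg₁ : W₁ →* Multiplicative ℤ) (deg₂ : W₂ →* Multiplicative ℤ) :
    fibreProduct deg₁ deg₂ →* Multiplicative ℤ :=
  deg₁.comp ((MonoidHom.fst W₁ W₂).comp (fibreProduct deg₁ deg₂).subtype)

theorem dP_apply (p : fibreProduct deg₁ deg₂) : dP deg₁ deg₂ p = deg₁ p.1.1 := rfl

theorem dP_apply' (p : fibreProduct deg₁ deg₂) : dP deg₁ deg₂ p = deg₂ p.1.2 := p.2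

/-- the first section -/
def s₁ {F₂ : W₂} (hF₂ : deg₂ F₂ = Multiplicative.ofAdd 1) : W₁ →* fibreProduct deg₁ deg₂ where
  toFun g := ⟨(g, zpowersHom W₂ F₂ (deg₁ g)), by
    change deg₁ g = deg₂ (zpowersHom W₂ F₂ (deg₁ g))
    rw [zpowersHom_apply, map_zpow, hF₂, ← ofAdd_zsmul, smul_eq_mul, mul_one, ofAdd_toAdd]⟩
  map_one' := by
    apply Subtype.ext
    change (1, zpowersHom W₂ F₂ (deg₁ 1)) = ((1, 1) : W₁ × W₂)
    rw [map_one, map_one]
  map_mul' g h := by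
    apply Subtype.ext
    change (g * h, zpowersHom W₂ F₂ (deg₁ (g * h))) = ((_, _) : W₁ × W₂)
    rw [map_mul, map_mul]

/-- the second section -/
def s₂ {F₁ : W₁} (hF₁ : deg₁ F₁ = Multiplicative.ofAdd 1) : W₂ →* fibreProduct deg₁ deg₂ where
  toFun h := ⟨(zpowersHom W₁ F₁ (deg₂ h), h), by
    change deg₁ (zpowersHom W₁ F₁ (deg₂ h)) = deg₂ h
    rw [zpowersHom_apply, map_zpow, hF₁, ← ofAdd_zsmul, smul_eq_mul, mul_one, ofAdd_toAdd]⟩
  map_one' := by
    apply Subtype.ext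
    change (zpowersHom W₁ F₁ (deg₂ 1), 1) = ((1, 1) : W₁ × W₂)
    rw [map_one, map_one]
  map_mul' g h := by
    apply Subtype.ext
    change (zpowersHom W₁ F₁ (deg₂ (g * h)), g * h) = ((_, _) : W₁ × W₂)
    rw [map_mul, map_mul]

variable {F₁ : W₁} {F₂ : W₂} (hF₁ : deg₁ F₁ = Multiplicative.ofAdd 1)
  (hF₂ : deg₂ F₂ = Multiplicative.ofAdd 1)

theorem s₁_val (g : W₁) : (s₁ (deg₁ := deg₁) hF₂ g).1 = (g, zpowersHom W₂ F₂ (deg₁ g)) := rfl

theorem s₂_val (h : W₂) : (s₂ (deg₂ := deg₂) hF₁ h).1 = (zpowersHom W₁ F₁ (deg₂ h), h) := rfl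

theorem deg_z₁ (x : Multiplicative ℤ) (hF₁ : deg₁ F₁ = Multiplicative.ofAdd 1) :
    deg₁ (zpowersHom W₁ F₁ x) = x := by
  rw [zpowersHom_apply, map_zpow, hF₁, ← ofAdd_zsmul, smul_eq_mul, mul_one, ofAdd_toAdd]

variable (rP : Representation E (fibreProduct deg₁ deg₂) V)

/-- the two groups -/
def S₁ : Set (fibreProduct deg₁ deg₂) := {p | deg₁ p.1.1 = 1 ∧ p.1.2 = 1}

/-- the two groups -/
def S₂ : Set (fibreProduct deg₁ deg₂) := {p | p.1.1 = 1 ∧ deg₂ p.1.2 = 1}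

theorem comm₁₂ : ∀ g ∈ S₁ (deg₁ := deg₁) (deg₂ := deg₂), ∀ h ∈ S₂, g * h = h * g := by
  rintro ⟨⟨g1, g2⟩, hg⟩ ⟨h1, h2⟩ ⟨⟨h3, h4⟩, hh⟩ ⟨h5, h6⟩
  change g2 = 1 at h2
  change h3 = 1 at h5
  subst h2
  subst h5
  apply Subtype.ext
  change (g1 * 1, 1 * h4) = ((1 * g1, h4 * 1) : W₁ × W₂)
  rw [mul_one, one_mul, mul_one, one_mul]

theorem st_union {rP : Representation E (fibreProduct deg₁ deg₂) V} {U : Submodule E V}
    (h : St rP (S₁ ∪ S₂) U) : St rP (layer (dP deg₁ deg₂) 0) U := by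
  rintro p hp u hu
  rw [mem_layer_zero, dP_apply] at hp
  have hp2 : deg₂ p.1.2 = 1 := by rw [← hp]; exact p.2.symm
  have h1 : p = (⟨(p.1.1, 1), by change _ = _; rw [hp, map_one]⟩ : fibreProduct deg₁ deg₂) *
      (⟨(1, p.1.2), by change _ = _; rw [hp2, map_one]⟩ : fibreProduct deg₁ deg₂) := by
    apply Subtype.ext
    change p.1 = (p.1.1 * 1, 1 * p.1.2)
    rw [mul_one, one_mul]
  have h2 := h (⟨(1, p.1.2), by change _ = _; rw [hp2, map_one]⟩ : fibreProduct deg₁ deg₂)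
    (Or.inr ⟨rfl, hp2⟩) u hu
  have h3 := h (⟨(p.1.1, 1), by change _ = _; rw [hp, map_one]⟩ : fibreProduct deg₁ deg₂)
    (Or.inl ⟨hp, rfl⟩) _ h2
  rw [← r_mul, ← h1] at h3
  exact h3

theorem ir_union {rP : Representation E (fibreProduct deg₁ deg₂) V} {U : Submodule E V}
    (h : Ir rP (layer (dP deg₁ deg₂) 0) U) : Ir rP (S₁ ∪ S₂) U := by
  refine ⟨h.1, ?_, fun Z hZ hZS => h.2.2 Z hZ (st_union hZS)⟩
  rintro p (hp | hp) u hu
  · exact h.2.1 p (mem_layer_zero.2 (by rw [dP_apply]; exact hp.1)) u hu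
  · exact h.2.1 p (mem_layer_zero.2 (by rw [dP_apply']; exact hp.2)) u hu

end main

end Pool.Agent.K1H13.GO
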