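import Mathlib
import Pool.Agent.K1H13.GO.Main

/-!
# The two factors
-/

set_option linter.unusedSectionVars false

namespace Pool.Agent.K1H13.GO

open Module TensorProduct

noncomputable section

variable {E : Type} [Field E] {V : Type} [AddCommGroup V] [Module E V]
  {W₁ W₂ : Type} [Group W₁] [Group W₂]
  {deg₁ : W₁ →* Multiplicative ℤ} {deg₂ : W₂ →* Multiplicative ℤ}
  {F₁ : W₁} {F₂ : W₂} (hF₁ : deg₁ F₁ = Multiplicative.ofAdd 1)
  (hF₂ : deg₂ F₂ = Multiplicative.ofAdd 1)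
  (rP : Representation E (fibreProduct deg₁ deg₂) V) {m : ℕ} {A Y : Submodule E V}
  (hA : St (rP.comp (s₁ hF₂)) (layer deg₁ m) A) (hY : St rP (layer (dP deg₁ deg₂) m) Y)
  (c : Eˣ)

/-- the restriction to `A` -/
def rA : Representation E (baseChange deg₁ m) A where
  toFun g := (rP (s₁ hF₂ g.1)).restrict (hA g.1 g.2)
  map_one' := by
    refine LinearMap.ext fun a => Subtype.ext ?_
    change rP (s₁ hF₂ 1) (a : V) = a
    rw [map_one, map_one]
    rfl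
  map_mul' g h := by
    refine LinearMap.ext fun a => Subtype.ext ?_
    change rP (s₁ hF₂ (g.1 * h.1)) (a : V) = rP _ (rP _ (a : V))
    rw [map_mul, r_mul]

theorem rA_apply (g : baseChange deg₁ m) (a : A) :
    (rA hF₂ rP hA g a : V) = rP (s₁ hF₂ g.1) a := rfl

/-- the powers of the Frobenius element -/
def kap : baseChange deg₂ m →* baseChange deg₁ m where
  toFun h := ⟨zpowersHom W₁ F₁ (deg₂ h.1), by
    change (m : ℤ) ∣ Multiplicative.toAdd (deg₁ (zpowersHom W₁ F₁ (deg₂ h.1)))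
    rw [deg_z₁ _ hF₁]
    exact h.2⟩
  map_one' := by
    apply Subtype.ext
    change zpowersHom W₁ F₁ (deg₂ 1) = 1
    rw [map_one, map_one]
  map_mul' g h := by
    apply Subtype.ext
    change zpowersHom W₁ F₁ (deg₂ (g.1 * h.1)) = _
    rw [map_mul, map_mul]
    rfl

theorem kap_val (h : baseChange deg₂ m) : (kap hF₁ h : W₁) = zpowersHom W₁ F₁ (deg₂ h.1) := rfl

/-- the first factor -/
def rep₁ : Representation E (baseChange deg₁ m) A where
  toFun g := ((zpowersHom Eˣ c (deg₁ g.1) : Eˣ) : E) • rA hF₂ rP hA g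
  map_one' := by
    rw [Subgroup.coe_one, map_one, map_one, map_one, Units.val_one, one_smul]
  map_mul' g h := by
    rw [Subgroup.coe_mul, map_mul, map_mul, map_mul, Units.val_mul, smul_mul_smul_comm]

theorem rep₁_apply (g : baseChange deg₁ m) (a : A) : (rep₁ hF₂ rP hA c g a : V) =
    ((zpowersHom Eˣ c (deg₁ g.1) : Eˣ) : E) • rP (s₁ hF₂ g.1) a := rfl

/-- the operator on maps -/
def opL (h : baseChange deg₂ m) : (A →ₗ[E] V) →ₗ[E] (A →ₗ[E] V) where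
  toFun f := (((zpowersHom Eˣ c (deg₂ h.1))⁻¹ : Eˣ) : E) •
    ((rP (s₂ hF₁ h.1)) ∘ₗ f ∘ₗ (rA hF₂ rP hA (kap hF₁ h)⁻¹))
  map_add' f f' := by
    ext a
    simp
  map_smul' d f := by
    ext a
    simp only [LinearMap.smul_apply, LinearMap.comp_apply, RingHom.id_apply, map_smul]
    rw [smul_comm]

theorem opL_apply (h : baseChange deg₂ m) (f : A →ₗ[E] V) (a : A) :
    opL hF₁ hF₂ rP hA c h f a = (((zpowersHom Eˣ c (deg₂ h.1))⁻¹ : Eˣ) : E) •
      rP (s₂ hF₁ h.1) (f (rA hF₂ rP hA (kap hF₁ h)⁻¹ a)) := rfl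

include hY in
theorem opL_mem (h : baseChange deg₂ m) {f : A →ₗ[E] V} (hf : f ∈ HomG rP S₁ A Y) :
    opL hF₁ hF₂ rP hA c h f ∈ HomG rP S₁ A Y := by
  refine ⟨?_, fun a => ?_⟩
  · rintro p ⟨hp1, hp2⟩ a a' haa
    rw [opL_apply, opL_apply, map_smul]
    congr 1
    -- the conjugate
    have hq : deg₁ ((kap hF₁ h : W₁)⁻¹ * p.1.1 * (kap hF₁ h : W₁)) = 1 := by
      rw [map_mul, map_mul, map_inv, mul_right_comm, inv_mul_cancel, one_mul, hp1]
    let q : fibreProduct deg₁ deg₂ := ⟨((kap hF₁ h : W₁)⁻¹ * p.1.1 * (kap hF₁ h : W₁), 1), by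
      change _ = _
      rw [hq, map_one]⟩
    have h1 : ((rA hF₂ rP hA (kap hF₁ h)⁻¹ a' : A) : V) =
        rP q (rA hF₂ rP hA (kap hF₁ h)⁻¹ a : A) := by
      rw [rA_apply, rA_apply, haa, ← r_mul, ← r_mul]
      congr 2
      apply Subtype.ext
      rw [Subgroup.coe_mul, Subgroup.coe_mul, s₁_val]
      refine Prod.ext ?_ ?_
      · change ((kap hF₁ h)⁻¹ : baseChange deg₁ m).1 * p.1.1 =
          (kap hF₁ h : W₁)⁻¹ * p.1.1 * (kap hF₁ h : W₁) * ((kap hF₁ h)⁻¹ : baseChange deg₁ m).1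
        rw [Subgroup.coe_inv]
        group
      · change _ * p.1.2 = 1 * _
        rw [hp2, mul_one, one_mul]
    rw [hf.1 q ⟨hq, rfl⟩ _ _ h1, ← r_mul, ← r_mul]
    congr 2
    apply Subtype.ext
    rw [Subgroup.coe_mul, Subgroup.coe_mul, s₂_val]
    refine Prod.ext ?_ ?_
    · change (kap hF₁ h : W₁) * ((kap hF₁ h : W₁)⁻¹ * p.1.1 * (kap hF₁ h : W₁)) =
        p.1.1 * (kap hF₁ h : W₁)
      group
    · change h.1 * 1 = p.1.2 * h.1
      rw [hp2, mul_one, one_mul]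
  · rw [opL_apply]
    refine Y.smul_mem _ (hY _ ?_ _ (hf.2 _))
    rw [mem_layer, dP_apply']
    exact h.2

/-- the second factor -/
def rep₂ : Representation E (baseChange deg₂ m) (HomG rP (S₁ (deg₁ := deg₁)) A Y) where
  toFun h := (opL hF₁ hF₂ rP hA c h).restrict fun _ hf => opL_mem hF₁ hF₂ rP hA hY c h hf
  map_one' := by
    refine LinearMap.ext fun f => Subtype.ext (LinearMap.ext fun a => ?_)
    change opL hF₁ hF₂ rP hA c 1 f.1 a = f.1 a
    rw [opL_apply, Subgroup.coe_one, map_one, map_one, map_one, map_one, map_one, inv_one,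
      inv_one, map_one, Units.val_one, one_smul]
    rfl
  map_mul' g h := by
    refine LinearMap.ext fun f => Subtype.ext (LinearMap.ext fun a => ?_)
    change opL hF₁ hF₂ rP hA c (g * h) f.1 a =
      opL hF₁ hF₂ rP hA c g (opL hF₁ hF₂ rP hA c h f.1) a
    rw [opL_apply, opL_apply, opL_apply, Subgroup.coe_mul, map_mul deg₂, map_mul (zpowersHom Eˣ c),
      map_mul (s₂ hF₁), map_mul (kap hF₁), mul_inv_rev, mul_inv_rev, map_mul (rA hF₂ rP hA),
      Module.End.mul_apply, r_mul, map_smul, smul_smul, Units.val_mul]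
    congr 1
    exact mul_comm _ _

theorem rep₂_apply (h : baseChange deg₂ m) (f : HomG rP (S₁ (deg₁ := deg₁)) A Y) (a : A) :
    (rep₂ hF₁ hF₂ rP hA hY c h f).1 a = (((zpowersHom Eˣ c (deg₂ h.1))⁻¹ : Eˣ) : E) •
      rP (s₂ hF₁ h.1) (f.1 (rA hF₂ rP hA (kap hF₁ h)⁻¹ a)) := rfl

/-- the equivariance of the evaluation -/
theorem ev_equivariant (p : fibreProduct deg₁ deg₂) (h1 : p.1.1 ∈ baseChange deg₁ m)
    (h2 : p.1.2 ∈ baseChange deg₂ m) (a : A) (f : HomG rP (S₁ (deg₁ := deg₁)) A Y) :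
    ev rP S₁ A Y (rep₁ hF₂ rP hA c ⟨p.1.1, h1⟩ a) (rep₂ hF₁ hF₂ rP hA hY c ⟨p.1.2, h2⟩ f) =
      rP p (ev rP S₁ A Y a f) := by
  have hd : deg₁ p.1.1 = deg₂ p.1.2 := p.2
  rw [ev_apply, ev_apply, rep₂_apply]
  have e1 : rep₁ hF₂ rP hA c ⟨p.1.1, h1⟩ a =
      ((zpowersHom Eˣ c (deg₁ p.1.1) : Eˣ) : E) • rA hF₂ rP hA ⟨p.1.1, h1⟩ a := rfl
  rw [e1, map_smul, map_smul, map_smul, smul_smul, hd, Units.inv_mul, one_smul]
  set k := kap hF₁ (⟨p.1.2, h2⟩ : baseChange deg₂ m) with hk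
  have hkd : deg₁ (k : W₁) = deg₁ p.1.1 := by
    rw [hk, kap_val, deg_z₁ _ hF₁, hd]
  have hq : deg₁ ((k : W₁)⁻¹ * p.1.1) = 1 := by
    rw [map_mul, map_inv, hkd, inv_mul_cancel]
  let q : fibreProduct deg₁ deg₂ := ⟨((k : W₁)⁻¹ * p.1.1, 1), by
    change _ = _
    rw [hq, map_one]⟩
  have e2 : ((rA hF₂ rP hA k⁻¹ (rA hF₂ rP hA ⟨p.1.1, h1⟩ a) : A) : V) = rP q a := by
    rw [rA_apply, rA_apply, ← r_mul, ← map_mul (s₁ hF₂)]
    congr 2
    apply Subtype.ext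
    rw [s₁_val]
    refine Prod.ext ?_ ?_
    · rfl
    · change zpowersHom W₂ F₂ (deg₁ ((k⁻¹ : baseChange deg₁ m).1 * p.1.1)) = 1
      rw [Subgroup.coe_inv, hq, map_one]
  rw [f.2.1 q ⟨hq, rfl⟩ a _ e2, ← r_mul]
  congr 2
  apply Subtype.ext
  rw [Subgroup.coe_mul, s₂_val]
  refine Prod.ext ?_ ?_
  · change zpowersHom W₁ F₁ (deg₂ p.1.2) * ((k : W₁)⁻¹ * p.1.1) = p.1.1
    rw [hk, kap_val]
    group
  · change p.1.2 * 1 = p.1.2
    rw [mul_one]

end

end Pool.Agent.K1H13.GO
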