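import Mathlib
import Pool.Agent.K1H13.GO.Reps

/-!
# The decomposition theorem
-/

set_option linter.unusedSectionVars false

namespace Pool.Agent.K1H13.GO

open Module TensorProduct

noncomputable section

section topology

variable {E : Type} [Field E] [TopologicalSpace E] [IsTopologicalRing E]
  {V : Type} [AddCommGroup V] [Module E V] [FiniteDimensional E V]
  {W : Type} [Group W] [TopologicalSpace W] {ρ : Representation E W V}

theorem dt_continuous (hρ : IsContinuousRep ρ) {Δ : Subgroup W} {U : Submodule E V}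
    (hU : St ρ Δ U) : Continuous fun g : Δ => dt ρ U g (hU g g.2) := by
  classical
  let b := Module.finBasis E U
  have h1 : ∀ i, ∃ l : Dual E V, ∀ u : U, l u = b.coord i u := by
    intro i
    obtain ⟨l, hl⟩ := LinearMap.exists_extend (b.coord i)
    exact ⟨l, fun u => LinearMap.congr_fun hl u⟩
  choose l hl using h1
  have h2 : (fun g : Δ => dt ρ U g (hU g g.2)) =
      fun g : Δ => (Matrix.of fun i j => l i (ρ g (b j))).det := by
    funext g
    rw [dt, ← LinearMap.det_toMatrix b]
    congr 1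
    ext i j
    rw [LinearMap.toMatrix_apply, Matrix.of_apply]
    exact (hl i _).symm
  rw [h2]
  refine Continuous.matrix_det ?_
  refine continuous_matrix fun i j => ?_
  exact (hρ (l i) (b j)).comp continuous_subtype_val

/-- the character given by a determinant -/
def dtHom {Δ : Subgroup W} {U : Submodule E V} (hU : St ρ Δ U) : Δ →* E where
  toFun g := dt ρ U g (hU g g.2)
  map_one' := dt_one _
  map_mul' g h := dt_mul _ _ _

variable [IsTopologicalGroup W] {deg : W →* Multiplicative ℤ}

theorem hcft_sub (hρ : IsContinuousRep ρ) (hcft : GeometricCharactersFinite E deg)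
    {Δ : Subgroup W} (hΔ : IsOpen (Δ : Set W)) (hΔ' : Δ.FiniteIndex) (U : Submodule E V)
    (hU : St ρ Δ U) :
    ∃ n : ℕ, 0 < n ∧ ∀ (g : W) (hg : g ∈ Δ), deg g = 1 → dt ρ U g (hU g hg) ^ n = 1 := by
  obtain ⟨n, hn, h⟩ := hcft Δ hΔ hΔ' (dtHom hU) (dt_continuous hρ hU)
  exact ⟨n, hn, fun g hg h1 => h ⟨g, hg⟩ h1⟩

theorem baseChange_open (hc : Continuous deg) (m : ℕ) : IsOpen (baseChange deg m : Set W) :=
  (isOpen_discrete {x : Multiplicative ℤ | (m : ℤ) ∣ Multiplicative.toAdd x}).preimage hc

end topology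

theorem baseChange_fi {W : Type} [Group W] (deg : W →* Multiplicative ℤ) {m : ℕ} (hm : 0 < m) :
    (baseChange deg m).FiniteIndex := by
  have : NeZero m := ⟨hm.ne'⟩
  let f : W →* Multiplicative (ZMod m) :=
    (AddMonoidHom.toMultiplicative (Int.castAddHom (ZMod m))).comp deg
  have h1 : baseChange deg m = f.ker := by
    ext g
    rw [MonoidHom.mem_ker]
    change (m : ℤ) ∣ Multiplicative.toAdd (deg g) ↔
      ((Multiplicative.toAdd (deg g) : ℤ) : ZMod m) = 0
    rw [ZMod.intCast_zmod_eq_zero_iff_dvd]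
  rw [h1]
  exact Subgroup.finiteIndex_ker f

section main

variable {E : Type} [Field E] [IsAlgClosed E] [TopologicalSpace E] [IsTopologicalRing E]
  {V : Type} [AddCommGroup V] [Module E V]
  [FiniteDimensional E V] {W W₁ W₂ : Type} [Group W] [Group W₁] [Group W₂]
  [TopologicalSpace W] [IsTopologicalGroup W] [TopologicalSpace W₁] [IsTopologicalGroup W₁]
  [TopologicalSpace W₂] [IsTopologicalGroup W₂]
  {deg : W →* Multiplicative ℤ}
  {deg₁ : W₁ →* Multiplicative ℤ} {deg₂ : W₂ →* Multiplicative ℤ}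
  {F₁ : W₁} {F₂ : W₂} (hF₁ : deg₁ F₁ = Multiplicative.ofAdd 1)
  (hF₂ : deg₂ F₂ = Multiplicative.ofAdd 1)

theorem dt_ne {Q : Type} [Group Q] {r : Representation E Q V} (Z : Submodule E V) (g : Q)
    (h : ∀ u ∈ Z, r g u ∈ Z) : dt r Z g h ≠ 0 := by
  intro h0
  have hb : Function.Bijective ((r g).restrict h) := by
    have hi : Function.Injective ((r g).restrict h) := by
      intro a b hab
      exact Subtype.ext (r_inj (r := r) g (congrArg Subtype.val hab))
    exact ⟨hi, LinearMap.injective_iff_surjective.1 hi⟩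
  have h1 := (LinearEquiv.ofBijective _ hb).isUnit_det'
  exact h1.ne_zero h0

theorem cont_rP {φ : fibreProduct deg₁ deg₂ →* W} (hφ : Continuous φ)
    {ρ : Representation E W V} (hρ : IsContinuousRep ρ) : IsContinuousRep (ρ.comp φ) :=
  fun l v => (hρ l v).comp hφ

theorem cont_s₁ (hc : Continuous deg₁) : Continuous (s₁ (deg₁ := deg₁) hF₂) := by
  refine Continuous.subtype_mk ?_ _
  exact continuous_id.prodMk ((continuous_of_discreteTopology (f := zpowersHom W₂ F₂)).comp hc)

theorem cont_s₂ (hc : Continuous deg₂) : Continuous (s₂ (deg₂ := deg₂) hF₁) := by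
  refine Continuous.subtype_mk ?_ _
  exact ((continuous_of_discreteTopology (f := zpowersHom W₁ F₁)).comp hc).prodMk continuous_id

theorem cont_rep₁ {rP : Representation E (fibreProduct deg₁ deg₂) V} (hrP : IsContinuousRep rP)
    (hc : Continuous deg₁) {m : ℕ} {A : Submodule E V}
    (hA : St (rP.comp (s₁ hF₂)) (layer deg₁ m) A) (c : Eˣ) :
    IsContinuousRep (rep₁ hF₂ rP hA c) := by
  intro l a
  obtain ⟨l', hl'⟩ := LinearMap.exists_extend l
  have h1 : ∀ g : baseChange deg₁ m, l (rep₁ hF₂ rP hA c g a) =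
      ((zpowersHom Eˣ c (deg₁ g.1) : Eˣ) : E) * l' (rP (s₁ hF₂ g.1) a) := by
    intro g
    have h2 : rep₁ hF₂ rP hA c g a =
      ((zpowersHom Eˣ c (deg₁ g.1) : Eˣ) : E) • rA hF₂ rP hA g a := rfl
    rw [h2, map_smul, smul_eq_mul, ← hl']
    rfl
  simp_rw [h1]
  refine Continuous.mul ?_ ?_
  · exact (continuous_of_discreteTopology
      (f := fun x : Multiplicative ℤ => ((zpowersHom Eˣ c x : Eˣ) : E))).comp
      (hc.comp continuous_subtype_val)
  · exact (hrP l' a).comp ((cont_s₁ hF₂ hc).comp continuous_subtype_val)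

theorem cont_hom {G : Type} [TopologicalSpace G] {A : Submodule E V} {Φ : G → (A →ₗ[E] V)}
    (h : ∀ (l : Dual E V) (a : A), Continuous fun g => l (Φ g a)) (L : Dual E (A →ₗ[E] V)) :
    Continuous fun g => L (Φ g) := by
  classical
  let a := Module.finBasis E A
  let b := Module.finBasis E V
  have h1 : ∀ f : A →ₗ[E] V, f = ∑ i, ∑ j, (b.coord j (f (a i))) •
      (((a.coord i).smulRight (b j)) : A →ₗ[E] V) := by
    intro f
    refine a.ext fun k => ?_
    rw [LinearMap.sum_apply, Finset.sum_eq_single k]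
    · rw [LinearMap.sum_apply]
      simp only [LinearMap.smul_apply, LinearMap.smulRight_apply, Basis.coord_apply,
        Basis.repr_self, Finsupp.single_eq_same, one_smul]
      exact (b.sum_repr (f (a k))).symm
    · intro i _ hi
      rw [LinearMap.sum_apply]
      refine Finset.sum_eq_zero fun j _ => ?_
      rw [LinearMap.smul_apply, LinearMap.smulRight_apply, Basis.coord_apply, Basis.coord_apply,
        Basis.repr_self, Finsupp.single_eq_of_ne hi, zero_smul, smul_zero]
    · intro hk
      exact absurd (Finset.mem_univ _) hk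
  have h2 : (fun g => L (Φ g)) = fun g => ∑ i, ∑ j, (b.coord j (Φ g (a i))) *
      L (((a.coord i).smulRight (b j)) : A →ₗ[E] V) := by
    funext g
    conv_lhs => rw [h1 (Φ g)]
    rw [map_sum]
    refine Finset.sum_congr rfl fun i _ => ?_
    rw [map_sum]
    refine Finset.sum_congr rfl fun j _ => ?_
    rw [map_smul, smul_eq_mul]
  rw [h2]
  refine continuous_finsetSum _ fun i _ => continuous_finsetSum _ fun j _ => ?_
  exact (h (b.coord j) (a i)).mul continuous_const

theorem cont_rep₂ {rP : Representation E (fibreProduct deg₁ deg₂) V} (hrP : IsContinuousRep rP)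
    (hc : Continuous deg₂) {m : ℕ} {A Y : Submodule E V}
    (hA : St (rP.comp (s₁ hF₂)) (layer deg₁ m) A) (hY : St rP (layer (dP deg₁ deg₂) m) Y)
    (c : Eˣ) : IsContinuousRep (rep₂ hF₁ hF₂ rP hA hY c) := by
  classical
  intro l f
  obtain ⟨L, hL⟩ := LinearMap.exists_extend l
  have h1 : ∀ h : baseChange deg₂ m, l (rep₂ hF₁ hF₂ rP hA hY c h f) =
      L (opL hF₁ hF₂ rP hA c h f.1) := by
    intro h
    rw [← hL]
    rfl
  simp_rw [h1]
  refine cont_hom (fun l a => ?_) L
  let b := Module.finBasis E V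
  have h2 : (fun h : baseChange deg₂ m => l (opL hF₁ hF₂ rP hA c h f.1 a)) =
      fun h => ∑ k, ((((zpowersHom Eˣ c (deg₂ h.1))⁻¹ : Eˣ) : E) *
        b.coord k (f.1 (rA hF₂ rP hA (kap hF₁ h)⁻¹ a))) * l (rP (s₂ hF₁ h.1) (b k)) := by
    funext h
    rw [opL_apply, map_smul, smul_eq_mul]
    conv_lhs => rw [← b.sum_repr (f.1 (rA hF₂ rP hA (kap hF₁ h)⁻¹ a))]
    rw [map_sum, map_sum, Finset.mul_sum]
    refine Finset.sum_congr rfl fun k _ => ?_
    rw [map_smul, map_smul, smul_eq_mul, Basis.coord_apply, mul_assoc]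
  rw [h2]
  refine continuous_finsetSum _ fun k _ => ?_
  refine Continuous.mul ?_ ?_
  · -- depends only on the degree
    refine IsLocallyConstant.continuous ((IsLocallyConstant.iff_exists_open _).2 fun h0 =>
      ⟨{h | deg₂ h.1 = deg₂ h0.1}, ?_, rfl, fun h hh => ?_⟩)
    · exact (isOpen_discrete {x : Multiplicative ℤ | x = deg₂ h0.1}).preimage
        (hc.comp continuous_subtype_val)
    · have h3 : deg₂ h.1 = deg₂ h0.1 := hh
      have h4 : kap hF₁ h = kap hF₁ h0 := by
        apply Subtype.ext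
        rw [kap_val, kap_val, h3]
      simp only [h3, h4]
  · exact (hrP l (b k)).comp ((cont_s₂ hF₁ hc).comp continuous_subtype_val)

end main

end

end Pool.Agent.K1H13.GO
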