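import Mathlib
import Pool.Agent.K1H13.GO.Final

/-!
# The decomposition theorem
-/

set_option linter.unusedSectionVars false

namespace Pool.Agent.K1H13.GO

open Module TensorProduct

noncomputable section

variable {E : Type} [Field E] [IsAlgClosed E] [TopologicalSpace E] [IsTopologicalRing E]
  {V : Type} [AddCommGroup V] [Module E V]
  [FiniteDimensional E V] {W W₁ W₂ : Type} [Group W] [Group W₁] [Group W₂]
  [TopologicalSpace W] [IsTopologicalGroup W] [TopologicalSpace W₁] [IsTopologicalGroup W₁]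
  [TopologicalSpace W₂] [IsTopologicalGroup W₂]
  {deg : W →* Multiplicative ℤ}
  {deg₁ : W₁ →* Multiplicative ℤ} {deg₂ : W₂ →* Multiplicative ℤ}
  {F₁ : W₁} {F₂ : W₂}

theorem ir_top {ρ : Representation E W V} (hirr : ρ.IsIrreducible) :
    Ir ρ (⊤ : Subgroup W) ⊤ := by
  have hn : Nontrivial V := by
    by_contra h
    rw [not_nontrivial_iff_subsingleton] at h
    have h1 : (⊥ : Subrepresentation ρ) ≠ ⊤ := bot_ne_top
    apply h1
    apply Subrepresentation.toSubmodule_injective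
    exact Subsingleton.elim _ _
  refine ⟨top_ne_bot, fun _ _ _ _ => trivial, fun U _ hU => ?_⟩
  let U' : Subrepresentation ρ := ⟨U, fun g u hu => hU g trivial u hu⟩
  rcases eq_bot_or_eq_top U' with h | h
  · left
    exact congrArg Subrepresentation.toSubmodule h
  · right
    exact congrArg Subrepresentation.toSubmodule h

theorem dt_finite {rP : Representation E (fibreProduct deg₁ deg₂) V}
    (hF₂ : deg₂ F₂ = Multiplicative.ofAdd 1) (hF₁ : deg₁ F₁ = Multiplicative.ofAdd 1) {m : ℕ}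
    (hm : 0 < m) {A : Submodule E V} (hA0 : A ≠ ⊥)
    (hA : St (rP.comp (s₁ hF₂)) (layer deg₁ m) A) :
    ∃ c : Eˣ, (∃ n : ℕ, 0 < n ∧ ∀ (g : W₁) (hg : g ∈ baseChange deg₁ m), deg₁ g = 1 →
      dt (rP.comp (s₁ hF₂)) A g (hA g hg) ^ n = 1) → FiniteDeterminant (rep₁ hF₂ rP hA c) := by
  have hF : F₁ ^ m ∈ baseChange deg₁ m := by
    change (m : ℤ) ∣ Multiplicative.toAdd (deg₁ (F₁ ^ m))
    rw [map_pow, hF₁, toAdd_pow, toAdd_ofAdd]
    simp
  have hnt : Nontrivial A := Submodule.nontrivial_iff_ne_bot.2 hA0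
  have hpos : 0 < m * finrank E A := Nat.mul_pos hm finrank_pos
  set z := dt (rP.comp (s₁ hF₂)) A (F₁ ^ m) (hA _ hF) with hz
  have hz0 : z ≠ 0 := dt_ne _ _ _
  obtain ⟨y, hy⟩ := IsAlgClosed.exists_pow_nat_eq z⁻¹ hpos
  have hy0 : y ≠ 0 := by
    rintro rfl
    rw [zero_pow hpos.ne'] at hy
    exact inv_ne_zero hz0 hy.symm
  refine ⟨Units.mk0 y hy0, ?_⟩
  rintro ⟨n, hn, hft⟩
  refine ⟨n, hn, ?_⟩
  have hdet : ∀ g : baseChange deg₁ m, LinearMap.det (rep₁ hF₂ rP hA (Units.mk0 y hy0) g) =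
      ((zpowersHom Eˣ (Units.mk0 y hy0) (deg₁ g.1) : Eˣ) : E) ^ finrank E A *
        dt (rP.comp (s₁ hF₂)) A g.1 (hA _ g.2) := by
    intro g
    have h2 : rep₁ hF₂ rP hA (Units.mk0 y hy0) g =
      ((zpowersHom Eˣ (Units.mk0 y hy0) (deg₁ g.1) : Eˣ) : E) • rA hF₂ rP hA g := rfl
    rw [h2, LinearMap.det_smul]
    rfl
  let δ : baseChange deg₁ m →* E :=
    (LinearMap.det : (A →ₗ[E] A) →* E).comp (rep₁ hF₂ rP hA (Units.mk0 y hy0))
  have hδF : δ ⟨F₁ ^ m, hF⟩ = 1 := by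
    change LinearMap.det (rep₁ hF₂ rP hA (Units.mk0 y hy0) ⟨F₁ ^ m, hF⟩) = 1
    rw [hdet]
    have h1 : ((zpowersHom Eˣ (Units.mk0 y hy0) (deg₁ (F₁ ^ m)) : Eˣ) : E) = y ^ m := by
      rw [map_pow, hF₁, zpowersHom_apply, toAdd_pow, toAdd_ofAdd]
      simp
    rw [h1, ← pow_mul, hy]
    exact inv_mul_cancel₀ hz0
  have hδz : ∀ t : ℤ, δ (⟨F₁ ^ m, hF⟩ ^ t) = 1 := by
    intro t
    have h1 : (δ.toHomUnits (⟨F₁ ^ m, hF⟩ ^ t) : E) = 1 := by
      rw [map_zpow]
      have h2 : δ.toHomUnits ⟨F₁ ^ m, hF⟩ = 1 := Units.ext hδF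
      rw [h2, one_zpow, Units.val_one]
    exact h1
  intro g
  obtain ⟨t, g0, hg0, hg, _⟩ := layer_split hF₁ g.2
  have hg0' : g0 ∈ baseChange deg₁ m := layer_zero hg0
  have h1 : g = (⟨g0, hg0'⟩ : baseChange deg₁ m) * ⟨F₁ ^ m, hF⟩ ^ t := Subtype.ext hg
  have h2 : LinearMap.det (rep₁ hF₂ rP hA (Units.mk0 y hy0) g) = δ g := rfl
  rw [h2, h1, map_mul, hδz, mul_one]
  change LinearMap.det (rep₁ hF₂ rP hA (Units.mk0 y hy0) ⟨g0, hg0'⟩) ^ n = 1
  rw [mem_layer_zero] at hg0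
  rw [hdet, hg0, map_one, Units.val_one, one_pow, one_mul]
  exact hft g0 hg0' hg0

/-- **The decomposition theorem.** -/
theorem decomposition (hc : Continuous deg) (hc₁ : Continuous deg₁) (hc₂ : Continuous deg₂)
    (hF₁ : deg₁ F₁ = Multiplicative.ofAdd 1) (hF₂ : deg₂ F₂ = Multiplicative.ofAdd 1)
    (φ : fibreProduct deg₁ deg₂ →* W) (hφ : Continuous φ) (hφo : IsOpenMap φ)
    (hφi : φ.range.FiniteIndex) (hφd : ∀ p, deg (φ p) = deg₁ p.1.1)
    (ρ : Representation E W V) (hρ : IsContinuousRep ρ) (hirr : ρ.IsIrreducible)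
    (hdet : FiniteDeterminant ρ) :
    ∃ (m : ℕ) (A B : Type) (_ : AddCommGroup A) (_ : Module E A) (_ : AddCommGroup B)
      (_ : Module E B) (ρ₁ : Representation E (baseChange deg₁ m) A)
      (ρ₂ : Representation E (baseChange deg₂ m) B) (T : A ⊗[E] B →ₗ[E] V),
      0 < m ∧ FiniteDimensional E A ∧ FiniteDimensional E B ∧
      IsContinuousRep ρ₁ ∧ IsContinuousRep ρ₂ ∧
      GeometricallyIrreducible deg₁ m ρ₁ ∧ GeometricallyIrreducible deg₂ m ρ₂ ∧
      Function.Injective T ∧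
      (∀ (p : fibreProduct deg₁ deg₂) (h₁ : p.1.1 ∈ baseChange deg₁ m)
        (h₂ : p.1.2 ∈ baseChange deg₂ m) (a : A) (b : B),
        T (ρ₁ ⟨p.1.1, h₁⟩ a ⊗ₜ ρ₂ ⟨p.1.2, h₂⟩ b) = ρ (φ p) (T (a ⊗ₜ b))) ∧
      (GeometricCharactersFinite E deg → GeometricCharactersFinite E deg₁ →
        FiniteDeterminant ρ₁ ∧ FiniteDeterminant ρ₂) := by
  classical
  have htop := ir_top hirr
  set rP : Representation E (fibreProduct deg₁ deg₂) V := ρ.comp φ with hrP
  have hrPc : IsContinuousRep rP := cont_rP hφ hρ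
  let F : fibreProduct deg₁ deg₂ := ⟨(F₁, F₂), by change _ = _; rw [hF₁, hF₂]⟩
  have hF : dP deg₁ deg₂ F = Multiplicative.ofAdd 1 := hF₁
  -- the subspace `Y`
  obtain ⟨Y, -, hYm⟩ := exists_minPS (r := rP) (d := dP deg₁ deg₂) _ ⊤ rfl htop.1
    ⟨1, one_pos, fun _ _ _ _ => trivial⟩
  have hYir := hYm.ir hF
  obtain ⟨hY0, ⟨mY, hmY, hYst⟩, -⟩ := hYm
  -- the subspace `A`
  obtain ⟨A, hAY, hAm⟩ := exists_minPS (r := rP.comp (s₁ hF₂)) (d := deg₁) _ Y rfl hY0
    ⟨mY, hmY, fun g hg u hu => hYst _ hg u hu⟩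
  have hAir := hAm.ir hF₁
  obtain ⟨hA0, ⟨mA, hmA, hAst⟩, -⟩ := hAm
  set m := mY * mA with hm
  have hm0 : 0 < m := Nat.mul_pos hmY hmA
  have hY : St rP (layer (dP deg₁ deg₂) m) Y := fun g hg =>
    hYst g (layer_mono (Dvd.intro _ rfl) hg)
  have hA : St (rP.comp (s₁ hF₂)) (layer deg₁ m) A := fun g hg =>
    hAst g (layer_mono (Dvd.intro_left _ rfl) hg)
  have hYir' := ir_union hYir
  have hAir' : Ir rP (S₁ (deg₁ := deg₁) (deg₂ := deg₂)) A := by
    have hs : ∀ p : fibreProduct deg₁ deg₂, p ∈ S₁ (deg₁ := deg₁) (deg₂ := deg₂) →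
        s₁ hF₂ p.1.1 = p := by
      rintro p ⟨hp1, hp2⟩
      apply Subtype.ext
      rw [s₁_val, hp1, map_one, ← hp2]
    refine ⟨hAir.1, fun p hp u hu => ?_, fun Z hZ hZS => hAir.2.2 Z hZ fun g hg u hu => ?_⟩
    · have h1 := hAir.2.1 p.1.1 (mem_layer_zero.2 hp.1) u hu
      change rP (s₁ hF₂ p.1.1) u ∈ A at h1
      rwa [hs p hp] at h1
    · rw [mem_layer_zero] at hg
      refine hZS (s₁ hF₂ g) ⟨hg, ?_⟩ u hu
      rw [s₁_val, hg, map_one]
  -- the determinant on `A`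
  obtain ⟨c, hdet₁⟩ := dt_finite hF₂ hF₁ hm0 hA0 hA
  have hdet₁ : GeometricCharactersFinite E deg₁ → FiniteDeterminant (rep₁ hF₂ rP hA c) :=
    fun hcft₁ => hdet₁ (hcft_sub (ρ := rP.comp (s₁ hF₂))
      (fun l v => (hrPc l v).comp (cont_s₁ hF₂ hc₁)) hcft₁ (baseChange_open hc₁ m)
        (baseChange_fi deg₁ hm0) A hA)
  -- the determinant on `Y`
  let Hm : Subgroup (fibreProduct deg₁ deg₂) := baseChange (dP deg₁ deg₂) m
  have hHm : Hm.FiniteIndex := baseChange_fi _ hm0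
  have hcP : Continuous (dP deg₁ deg₂) :=
    hc₁.comp (continuous_fst.comp continuous_subtype_val)
  set H := Hm.map φ with hH
  have hHf : H.FiniteIndex := by
    refine ⟨?_⟩
    rw [hH, Subgroup.index_map]
    refine mul_ne_zero ?_ hφi.index_ne_zero
    exact (Subgroup.finiteIndex_of_le (le_sup_left : Hm ≤ Hm ⊔ φ.ker)).index_ne_zero
  have hHo : IsOpen (H : Set W) := hφo _ (baseChange_open hcP m)
  have hYH : Ir ρ H Y := by
    refine ⟨hY0, ?_, fun Z hZ hZS => hYir.2.2 Z hZ fun p hp u hu => ?_⟩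
    · rintro _ ⟨p, hp, rfl⟩ u hu
      exact hY p hp u hu
    · exact hZS (φ p) ⟨p, layer_zero hp, rfl⟩ u hu
  have hFm : F ^ m ∈ Hm := by
    change (m : ℤ) ∣ Multiplicative.toAdd (dP deg₁ deg₂ (F ^ m))
    rw [map_pow, hF, toAdd_pow, toAdd_ofAdd]
    simp
  -- the tensor product
  have hinj : Function.Injective (TensorProduct.lift (ev rP S₁ A Y)) := ev_injective hAir'
  have hMnt : Nontrivial (HomG rP (S₁ (deg₁ := deg₁) (deg₂ := deg₂)) A Y) :=
    hom_nontrivial hAir' hAY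
  have hrange : ∀ x, TensorProduct.lift (ev rP S₁ A Y) x ∈ Y := by
    intro x
    induction x using TensorProduct.induction_on with
    | zero => rw [map_zero]; exact Submodule.zero_mem _
    | tmul a f => exact f.2.2 a
    | add x y hx hy => rw [map_add]; exact Submodule.add_mem _ hx hy
  let e0 : (A ⊗[E] HomG rP (S₁ (deg₁ := deg₁) (deg₂ := deg₂)) A Y) →ₗ[E] Y :=
    (TensorProduct.lift (ev rP S₁ A Y)).codRestrict Y hrange
  have he0 : Function.Bijective e0 := by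
    constructor
    · intro x y hxy
      exact hinj (congrArg Subtype.val hxy)
    · rintro ⟨y, hy⟩
      have h1 := ev_range comm₁₂ hYir' hAir' ⊤ (fun _ _ _ _ => trivial) top_ne_bot
      have h2 : y ∈ LinearMap.range ((TensorProduct.lift (ev rP S₁ A Y)) ∘ₗ
          (TensorProduct.map LinearMap.id (⊤ : Submodule E (HomG rP S₁ A Y)).subtype)) := by
        rw [h1]; exact hy
      obtain ⟨x, hx⟩ := h2
      exact ⟨_, Subtype.ext hx⟩
  let e := LinearEquiv.ofBijective e0 he0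
  have he : ∀ x, (e x : V) = TensorProduct.lift (ev rP S₁ A Y) x := fun x => rfl
  have hequiv : ∀ (p : fibreProduct deg₁ deg₂) (h₁ : p.1.1 ∈ baseChange deg₁ m)
      (h₂ : p.1.2 ∈ baseChange deg₂ m) (x : A ⊗[E] HomG rP (S₁ (deg₁ := deg₁)) A Y),
      TensorProduct.lift (ev rP S₁ A Y) (TensorProduct.map (rep₁ hF₂ rP hA c ⟨p.1.1, h₁⟩)
        (rep₂ hF₁ hF₂ rP hA hY c ⟨p.1.2, h₂⟩) x) = rP p (TensorProduct.lift (ev rP S₁ A Y) x) := by
    intro p h₁ h₂ x
    induction x using TensorProduct.induction_on with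
    | zero => rw [map_zero, map_zero, map_zero]
    | tmul a f =>
      rw [TensorProduct.map_tmul, TensorProduct.lift.tmul, TensorProduct.lift.tmul]
      exact ev_equivariant hF₁ hF₂ rP hA hY c p h₁ h₂ a f
    | add x y hx hy => rw [map_add, map_add, map_add, map_add, hx, hy]
  refine ⟨m, A, HomG rP (S₁ (deg₁ := deg₁)) A Y, inferInstance, inferInstance, inferInstance,
    inferInstance, rep₁ hF₂ rP hA c, rep₂ hF₁ hF₂ rP hA hY c, TensorProduct.lift (ev rP S₁ A Y),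
    hm0, inferInstance, inferInstance, cont_rep₁ hF₂ hrPc hc₁ hA c,
    cont_rep₂ hF₁ hF₂ hrPc hc₂ hA hY c, ⟨Submodule.nontrivial_iff_ne_bot.2 hA0, ?_⟩,
    ⟨hMnt, ?_⟩, hinj, ?_, fun hcft hcft₁ => ⟨hdet₁ hcft₁, ?_⟩⟩
  · -- `A` is geometrically irreducible
    intro U hU
    have h1 : St (rP.comp (s₁ hF₂)) (layer deg₁ 0) (U.map A.subtype) := by
      rintro g hg _ ⟨u, hu, rfl⟩
      have hg' : g ∈ baseChange deg₁ m := layer_zero hg
      rw [mem_layer_zero] at hg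
      refine ⟨_, hU ⟨g, hg'⟩ hg u hu, ?_⟩
      change (rep₁ hF₂ rP hA c ⟨g, hg'⟩ u : V) = _
      rw [rep₁_apply]
      change ((zpowersHom Eˣ c (deg₁ g) : Eˣ) : E) • _ = _
      rw [hg, map_one, Units.val_one, one_smul]
      rfl
    rcases hAir.2.2 _ (Submodule.map_subtype_le _ _) h1 with h2 | h2
    · left
      rw [eq_bot_iff]
      intro u hu
      have h3 : (u : V) ∈ U.map A.subtype := ⟨u, hu, rfl⟩
      rw [h2, Submodule.mem_bot] at h3
      exact Subtype.ext h3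
    · right
      rw [eq_top_iff]
      intro u _
      have h3 : (u : V) ∈ U.map A.subtype := by rw [h2]; exact u.2
      obtain ⟨u', hu', h4⟩ := h3
      rwa [Subtype.ext h4] at hu'
  · -- the second factor is geometrically irreducible
    intro N hN
    refine hom_irr comm₁₂ hYir' hAir' N ?_
    rintro p ⟨hp1, hp2⟩ f hf
    have hp2' : p.1.2 ∈ baseChange deg₂ m := by
      change (m : ℤ) ∣ Multiplicative.toAdd (deg₂ p.1.2)
      rw [hp2]
      exact dvd_zero _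
    have h1 := hN ⟨p.1.2, hp2'⟩ hp2 f hf
    have h2 : rep₂ hF₁ hF₂ rP hA hY c ⟨p.1.2, hp2'⟩ f =
        ⟨(rP p) ∘ₗ f.1, comp_mem comm₁₂ hYir'.2.1 ⟨hp1, hp2⟩ f.2⟩ := by
      apply Subtype.ext
      refine LinearMap.ext fun a => ?_
      rw [rep₂_apply]
      have hk : kap (deg₂ := deg₂) hF₁ (⟨p.1.2, hp2'⟩ : baseChange deg₂ m) = 1 := by
        apply Subtype.ext
        rw [kap_val, hp2, map_one]
        rfl
      have hs : s₂ (deg₂ := deg₂) hF₁ p.1.2 = p := by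
        apply Subtype.ext
        rw [s₂_val, hp2, map_one, ← hp1]
      have h5 : zpowersHom Eˣ c (deg₂ p.1.2) = 1 := by rw [hp2, map_one]
      change (((zpowersHom Eˣ c (deg₂ p.1.2))⁻¹ : Eˣ) : E) • rP (s₂ hF₁ p.1.2) _ = _
      rw [hk, hs, h5, inv_one, inv_one, Units.val_one, one_smul, map_one]
      rfl
    rw [h2] at h1
    exact h1
  · intro p h₁ h₂ a f
    rw [← TensorProduct.map_tmul, hequiv]
    rfl
  · -- the determinant of the second factor
    obtain ⟨n, hn, hdetY⟩ := det_sub (ρ := ρ) (deg := deg) htop hdet (H := H)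
      (fun Δ hΔ U hU => by
        rcases hΔ with rfl | rfl
        · exact hcft_sub hρ hcft hHo hHf U hU
        · refine hcft_sub hρ hcft ?_ inferInstance U hU
          exact Subgroup.isOpen_of_isClosed_of_finiteIndex _
            (H.normalCore_isClosed (H.isClosed_of_isOpen hHo)))
      hHf hYH (F := φ (F ^ m)) ⟨_, hFm, rfl⟩ (by
        rintro _ ⟨p, hp, rfl⟩
        obtain ⟨t, p0, hp0, hp', _⟩ := layer_split hF hp
        refine ⟨t, φ p0, ⟨p0, layer_zero hp0, rfl⟩, ?_, ?_⟩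
        · rw [hφd]
          exact mem_layer_zero.1 hp0
        · rw [← map_zpow, ← map_mul, ← hp'])
    obtain ⟨n₁, hn₁, hdet₁⟩ := hdet₁ hcft₁
    have hApos : 0 < finrank E A := by
      have : Nontrivial A := Submodule.nontrivial_iff_ne_bot.2 hA0
      exact finrank_pos
    refine ⟨finrank E A * (n₁ * n), by positivity, fun h => ?_⟩
    set p := s₂ (deg₂ := deg₂) hF₁ h.1 with hp
    have hp1 : p.1.1 ∈ baseChange deg₁ m := (kap hF₁ h).2
    have hp2 : p.1.2 ∈ baseChange deg₂ m := h.2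
    have hpm : p ∈ Hm := by
      change (m : ℤ) ∣ Multiplicative.toAdd (dP deg₁ deg₂ p)
      rw [dP_apply']
      exact h.2
    have h1 : LinearMap.det (TensorProduct.map (rep₁ hF₂ rP hA c ⟨p.1.1, hp1⟩)
        (rep₂ hF₁ hF₂ rP hA hY c ⟨p.1.2, hp2⟩)) = dt rP Y p (hY p hpm) := by
      rw [dt, ← LinearMap.det_conj _ e]
      congr 1
      refine LinearMap.ext fun y => ?_
      obtain ⟨x, rfl⟩ := e.surjective y
      apply Subtype.ext
      rw [LinearMap.comp_apply, LinearMap.comp_apply, LinearEquiv.coe_coe, LinearEquiv.coe_coe,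
        e.symm_apply_apply, he, hequiv]
      rfl
    rw [det_tmap] at h1
    have h2 : dt rP Y p (hY p hpm) ^ n = 1 := hdetY (φ p) ⟨p, hpm, rfl⟩
    have h3 := congrArg (fun z => z ^ (n₁ * n)) h1
    simp only [mul_pow] at h3
    rw [← pow_mul, ← pow_mul, mul_comm _ (n₁ * n), mul_assoc, pow_mul, hdet₁, one_pow, one_mul]
      at h3
    have h4 : dt rP Y p (hY p hpm) ^ (n₁ * n) = 1 := by
      rw [mul_comm, pow_mul, h2, one_pow]
    rw [h4] at h3
    exact h3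

end

end Pool.Agent.K1H13.GO
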